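import Pool.Agent.helper76.FV.Defs

/-! # Products of Fermat varieties: block structures -/

namespace Pool.Agent.helper76.FV

open Finset

/-- number of indices in the block `j` -/
def bsize {k s : ℕ} (π : Fin k → Fin s) (j : Fin s) : ℕ := (univ.filter (fun i => π i = j)).card

/-- number of blocks of odd size -/
def oddBlocks {k s : ℕ} (π : Fin k → Fin s) : ℕ := (univ.filter (fun j => Odd (bsize π j))).card

/-- all block sums vanish -/
def BlockZero {m k s : ℕ} (π : Fin k → Fin s) (a : Fin k → ZMod m) : Prop :=
  ∀ j, ∑ i ∈ univ.filter (fun i => π i = j), a i = 0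

end Pool.Agent.helper76.FV
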