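import Pool.Agent.helper76.FV.Main
import Pool.Agent.helper27.FV.GF

/-! # Tate characters of products of Fermat varieties -/

namespace Pool.Agent.helper76.FV

open Finset

/-- Tate characters of a product of `s` Fermat varieties of degree `m`: the coordinates are
`Fin k`, the coordinate `i` belongs to the factor `π i`, the factor `j` is
`x_0^m + ... + x_{n+1}^m = 0` with `n + 2 = #{i | π i = j}` coordinates. A character is a vector
`a` of nonzero residues with sum zero over every factor; it is Tate when for all primes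
`p ≡ 1 (mod m)` and all characters `χ` of `𝔽_p` of order `m` the square of the product of the
Gauss sums `g(χ^{a_i})`, divided by `p^k`, is a root of unity. -/
def IsTateChar (m : ℕ) {k s : ℕ} (π : Fin k → Fin s) (a : Fin k → ZMod m) : Prop :=
  (∀ i, a i ≠ 0) ∧ (∀ j, ∑ i ∈ univ.filter (fun i => π i = j), a i = 0) ∧
  ∀ p : ℕ, ∀ _ : Fact p.Prime, p ≡ 1 [MOD m] → ∀ χ : MulChar (ZMod p) ℂ, orderOf χ = m →
    ∃ n : ℕ, 0 < n ∧
      ((∏ i, gaussSum (χ ^ (a i).val) (ZMod.stdAddChar (N := p))) ^ 2) ^ n = ((p : ℂ) ^ k) ^ n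

/-- Tate characters of the Fermat variety `x_0^m + ... + x_{2r+1}^m = 0` of dimension `2r`:
vectors `a` of nonzero residues with sum zero such that for all primes `p ≡ 1 (mod m)` and all
characters `χ` of `𝔽_p` of order `m` the Frobenius eigenvalue `(1/p) ∏ g(χ^{a_i})` is `p^r` times
a root of unity. -/
def IsTateFermat (m r : ℕ) (a : Fin (2 * r + 2) → ZMod m) : Prop :=
  (∀ i, a i ≠ 0) ∧ ∑ i, a i = 0 ∧
  ∀ p : ℕ, ∀ _ : Fact p.Prime, p ≡ 1 [MOD m] → ∀ χ : MulChar (ZMod p) ℂ, orderOf χ = m →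
    ∃ n : ℕ, 0 < n ∧
      ((1 / (p : ℂ)) * ∏ i, gaussSum (χ ^ (a i).val) (ZMod.stdAddChar (N := p))) ^ n
        = ((p : ℂ) ^ r) ^ n

lemma sum_eq_zero_of_blocks {m k s : ℕ} (π : Fin k → Fin s) (a : Fin k → ZMod m)
    (h : ∀ j, ∑ i ∈ univ.filter (fun i => π i = j), a i = 0) : ∑ i, a i = 0 := by
  rw [← Finset.sum_fiberwise univ π]
  exact Finset.sum_eq_zero fun j _ => h j

theorem isTateChar_iff (m : ℕ) (hm : 0 < m) {k s : ℕ} (π : Fin k → Fin s) (a : Fin k → ZMod m) :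
    IsTateChar m π a ↔ BlockTate m π a := by
  constructor
  · rintro ⟨h0, hb, hf⟩
    exact ⟨hb, (frob_iff m hm a h0 (sum_eq_zero_of_blocks π a hb)).1 hf⟩
  · rintro ⟨hb, ht⟩
    exact ⟨ht.1, hb, (frob_iff m hm a ht.1 (sum_eq_zero_of_blocks π a hb)).2 ht⟩

theorem isTateFermat_iff (m : ℕ) (hm : 0 < m) (r : ℕ) (a : Fin (2 * r + 2) → ZMod m) :
    IsTateFermat m r a ↔ TateM m a := by
  have key : ∀ (p : ℕ) (_ : Fact p.Prime) (G : ℂ),
      (∃ n : ℕ, 0 < n ∧ ((1 / (p : ℂ)) * G) ^ n = ((p : ℂ) ^ r) ^ n) ↔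
      (∃ n : ℕ, 0 < n ∧ (G ^ 2) ^ n = ((p : ℂ) ^ (2 * r + 2)) ^ n) := by
    intro p hp G
    have hp0 : (p : ℂ) ≠ 0 := by exact_mod_cast hp.out.ne_zero
    constructor
    · rintro ⟨n, hn, h⟩
      refine ⟨n, hn, ?_⟩
      have h1 : G ^ n = ((p : ℂ) ^ (r + 1)) ^ n := by
        have : G = (p : ℂ) * ((1 / (p : ℂ)) * G) := by field_simp
        rw [this, mul_pow, h, ← mul_pow, pow_succ]
        congr 1; ring
      calc (G ^ 2) ^ n = (G ^ n) ^ 2 := by rw [← pow_mul, ← pow_mul, mul_comm]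
        _ = (((p : ℂ) ^ (r + 1)) ^ n) ^ 2 := by rw [h1]
        _ = ((p : ℂ) ^ (2 * r + 2)) ^ n := by
          rw [← pow_mul, ← pow_mul, ← pow_mul]; congr 1; ring
    · rintro ⟨n, hn, h⟩
      refine ⟨2 * n, by omega, ?_⟩
      rw [mul_pow, pow_mul G 2 n, h, one_div, inv_pow, ← pow_mul, ← pow_mul]
      rw [inv_mul_eq_iff_eq_mul₀ (pow_ne_zero _ hp0), ← pow_add]
      congr 1; ring
  constructor
  · rintro ⟨h0, hs, hf⟩
    exact (frob_iff m hm a h0 hs).1 fun p hp hpm χ hχ => (key p hp _).1 (hf p hp hpm χ hχ)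
  · intro ht
    have hs := TateM_sum_zero m r a hm ht
    exact ⟨ht.1, hs, fun p hp hpm χ hχ => (key p hp _).2 ((frob_iff m hm a ht.1 hs).2 ht p hp hpm χ hχ)⟩

/-- finitely many families contain all Tate characters -/
theorem tate_families {k s : ℕ} (π : Fin k → Fin s) :
    ∃ L : List (Fam k), ∀ m : ℕ, 0 < m → ∀ a : Fin k → ZMod m,
      IsTateChar m π a ↔ (∀ i, a i ≠ 0) ∧ ∃ H ∈ L, H.Mem (fun i => ((a i).val : ℚ) / m) := by
  obtain ⟨L, hL⟩ := block_families π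
  exact ⟨L, fun m hm a => (isTateChar_iff m hm π a).trans (hL m hm a)⟩

/-- one block -/
def oneBlock (k : ℕ) : Fin k → Fin 1 := fun _ => 0

lemma blockTate_one (m : ℕ) (hm : 0 < m) (r : ℕ) (a : Fin (2 * r + 2) → ZMod m) :
    BlockTate m (oneBlock (2 * r + 2)) a ↔ TateM m a := by
  refine ⟨fun h => h.2, fun h => ⟨fun j => ?_, h⟩⟩
  have : univ.filter (fun i => oneBlock (2 * r + 2) i = j) = univ := by
    ext i; simp [oneBlock, Subsingleton.elim j 0]
  rw [this]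
  exact TateM_sum_zero m r a hm h

/-- number of Tate characters of `X_m^{2r}` up to `O(m^r)` -/
theorem tate_count_asymp (r : ℕ) : ∃ C : ℕ, ∀ m : ℕ, 0 < m →
    |(Set.ncard {a : Fin (2 * r + 2) → ZMod m | IsTateFermat m r a} : ℤ)
      - (Nat.doubleFactorial (2 * r + 1) : ℤ) * (m : ℤ) ^ (r + 1)| ≤ C * (m : ℤ) ^ r := by
  obtain ⟨C1, h1⟩ := exceptional r
  obtain ⟨C2, h2⟩ := paired_count r
  refine ⟨C1 + C2, fun m hm => ?_⟩
  have : NeZero m := ⟨hm.ne'⟩
  have hset : {a : Fin (2 * r + 2) → ZMod m | IsTateFermat m r a} =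
      {a | TateM m a ∧ ¬ Paired a} ∪ {a | (∀ i, a i ≠ 0) ∧ Paired a} := by
    ext a
    change IsTateFermat m r a ↔ (TateM m a ∧ ¬ Paired a) ∨ ((∀ i, a i ≠ 0) ∧ Paired a)
    rw [isTateFermat_iff m hm]
    constructor
    · intro h
      by_cases hp : Paired a
      · exact Or.inr ⟨h.1, hp⟩
      · exact Or.inl ⟨h, hp⟩
    · rintro (h | h)
      · exact h.1
      · exact TateM_of_paired m hm a h.1 h.2
  have hdisj : Disjoint {a : Fin (2 * r + 2) → ZMod m | TateM m a ∧ ¬ Paired a}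
      {a | (∀ i, a i ≠ 0) ∧ Paired a} := by
    rw [Set.disjoint_left]
    intro a ha hb
    exact ha.2 hb.2
  have hc := Set.ncard_union_eq hdisj (Set.toFinite _) (Set.toFinite _)
  rw [← hset] at hc
  have e1 := h1 m hm
  have e2 := h2 m hm
  rw [hc]
  push_cast
  have e1' : ((Set.ncard {a : Fin (2 * r + 2) → ZMod m | TateM m a ∧ ¬ Paired a} : ℕ) : ℤ)
      ≤ C1 * (m : ℤ) ^ r := by exact_mod_cast e1
  have e0 : (0 : ℤ) ≤ ((Set.ncard {a : Fin (2 * r + 2) → ZMod m | TateM m a ∧ ¬ Paired a} : ℕ) : ℤ) :=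
    Int.natCast_nonneg _
  rw [abs_le] at e2 ⊢
  constructor <;> nlinarith [e2.1, e2.2, e1', e0, pow_nonneg (Int.natCast_nonneg m) r]

/-- the number of Tate characters of `X_m^{2r}` is an exact quasi-polynomial -/
theorem tate_quasi (r : ℕ) : ∃ N : ℕ, 0 < N ∧ ∃ P : ℕ → Polynomial ℚ,
    (∀ c, (P c).natDegree = r + 1 ∧ (P c).leadingCoeff = (Nat.doubleFactorial (2 * r + 1) : ℚ)) ∧
    ∀ m : ℕ, 0 < m →
      (Set.ncard {a : Fin (2 * r + 2) → ZMod m | IsTateFermat m r a} : ℚ)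
        = (P (m % N)).eval (m : ℚ) := by
  obtain ⟨C, hC⟩ := tate_count_asymp r
  refine QP_leading (fun m => (Set.ncard {a : Fin (2 * r + 2) → ZMod m | IsTateFermat m r a} : ℚ))
    ?_ (Nat.doubleFactorial (2 * r + 1) : ℚ) ?_ r (C : ℚ) ?_
  · obtain ⟨N, hN, P, hP⟩ := block_qp (oneBlock (2 * r + 2))
    refine ⟨N, hN, P, fun m hm => ?_⟩
    rw [← hP m hm]
    have : {a : Fin (2 * r + 2) → ZMod m | IsTateFermat m r a} =
        {a : Fin (2 * r + 2) → ZMod m | BlockTate m (oneBlock (2 * r + 2)) a} := by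
      ext a
      exact (isTateFermat_iff m hm r a).trans (blockTate_one m hm r a).symm
    change ((Set.ncard {a : Fin (2 * r + 2) → ZMod m | IsTateFermat m r a} : ℕ) : ℚ) = _
    rw [this]
  · exact_mod_cast (Nat.doubleFactorial_pos _).ne'
  · intro m hm
    have := hC m hm
    have h2 : ((|(Set.ncard {a : Fin (2 * r + 2) → ZMod m | IsTateFermat m r a} : ℤ)
      - (Nat.doubleFactorial (2 * r + 1) : ℤ) * (m : ℤ) ^ (r + 1)| : ℤ) : ℚ) ≤ ((C * (m : ℤ) ^ r : ℤ) : ℚ) := by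
      exact_mod_cast this
    push_cast at h2
    exact h2

end Pool.Agent.helper76.FV
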