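import Pool.Agent.helper76.FV.BM0
import Pool.Agent.helper34.FV.CL

/-! # Pure families with vanishing block sums -/

namespace Pool.Agent.helper76.FV

open Finset Pool.Agent.helper76.FV.Frame

/-- the integers as a subgroup of `ℚ` -/
def ZZ : AddSubgroup ℚ := (Int.castAddHom ℚ).range

lemma mem_ZZ {x : ℚ} : x ∈ ZZ ↔ ∃ n : ℤ, x = n := by
  constructor
  · rintro ⟨n, rfl⟩; exact ⟨n, rfl⟩
  · rintro ⟨n, rfl⟩; exact ⟨n, rfl⟩

lemma fract_zero_iff {x : ℚ} : Int.fract x = 0 ↔ x ∈ ZZ := by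
  rw [Int.fract_eq_zero_iff, mem_ZZ]
  constructor
  · rintro ⟨n, hn⟩; exact ⟨n, hn.symm⟩
  · rintro ⟨n, hn⟩; exact ⟨n, hn.symm⟩

/-- rational rows -/
def vrow {k : ℕ} (H : Fam k) (i : Fin k) : Fin H.d → ℚ := fun l => (H.A i l : ℚ)

/-- value of the coordinate `i` at the parameter `u` -/
def vval {k : ℕ} (H : Fam k) (u : Fin H.d → ℚ) (i : Fin k) : ℚ :=
  ∑ l, (H.A i l : ℚ) * u l + H.b i

lemma vrow_ne {k : ℕ} (H : Fam k) {i : Fin k} : vrow H i ≠ 0 ↔ H.A i ≠ 0 := by
  rw [not_iff_not]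
  constructor
  · intro h
    funext l
    have := congrFun h l
    simpa [vrow] using this
  · intro h
    funext l
    simp [vrow, h]

lemma par_of_smul {k : ℕ} (H : Fam k) {i j : Fin k} (c : ℚ) (hc : c ≠ 0)
    (h : vrow H j = c • vrow H i) : Par (H.A j) (H.A i) := by
  refine ⟨c.den, c.num, by exact_mod_cast c.pos.ne', by simpa using hc, fun l => ?_⟩
  have h1 := congrFun h l
  simp only [vrow, Pi.smul_apply, smul_eq_mul] at h1
  have h2 : (c.den : ℚ) * (H.A j l : ℚ) = c.num * H.A i l := by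
    rw [h1, ← mul_assoc, mul_comm (c.den : ℚ) c, Rat.mul_den_eq_num]
  exact_mod_cast h2

lemma smul_of_par {k : ℕ} (H : Fam k) {i j : Fin k} (h : Par (H.A j) (H.A i)) :
    ∃ c : ℚ, c ≠ 0 ∧ vrow H j = c • vrow H i := by
  obtain ⟨p, q, hp, hq, h⟩ := h
  have hp' : (p : ℚ) ≠ 0 := by exact_mod_cast hp
  have hq' : (q : ℚ) ≠ 0 := by exact_mod_cast hq
  refine ⟨q / p, div_ne_zero hq' hp', ?_⟩
  funext l
  have h1 : (p : ℚ) * H.A j l = q * H.A i l := by exact_mod_cast h l
  simp only [vrow, Pi.smul_apply, smul_eq_mul]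
  rw [div_mul_eq_mul_div, eq_div_iff hp']
  linarith

lemma BM_exact {k : ℕ} (H : Fam k) (hp : H.Pure) (hz : ∀ j, H.A j = 0 → Int.fract (H.b j) ≠ 0)
    (i j : Fin k) (hi : H.A i ≠ 0) (hpar : Par (H.A j) (H.A i))
    (hcl : ∀ l, Par (H.A l) (H.A i) → l = i ∨ l = j) :
    (∀ l, (H.A j l : ℚ) = - H.A i l) ∧ H.b i + H.b j ∈ ZZ := by
  have hj : H.A j ≠ 0 := CL_ne (CL_symm hpar) hi
  have hcl' : ∀ l, Par (H.A l) (H.A j) → l = j ∨ l = i := fun l hl =>
    (hcl l (CL_trans hl hpar)).symm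
  -- integrality of the ratio
  have key : ∀ i j : Fin k, H.A i ≠ 0 → (∀ l, Par (H.A l) (H.A i) → l = i ∨ l = j) →
      ∃ κ : ℤ, 0 < κ ∧ (∀ l, (H.A j l : ℚ) = -κ * H.A i l) ∧ (κ : ℚ) * H.b i + H.b j ∈ ZZ := by
    intro i j hi hcl
    obtain ⟨j0, h0, hp0, κ0, hk0, hr0, N0, hN0⟩ := CL_partner H hp hz i hi 0
    obtain ⟨j1, h1, hp1, κ1, hk1, hr1, N1, hN1⟩ := CL_partner H hp hz i hi 1
    have e0 : j0 = j := (hcl j0 hp0).resolve_left h0
    have e1 : j1 = j := (hcl j1 hp1).resolve_left h1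
    subst e0
    subst e1
    obtain ⟨l, hl⟩ := Function.ne_iff.1 hi
    have hl' : (H.A i l : ℚ) ≠ 0 := by simpa using hl
    have hκ : κ0 = κ1 := by
      have := (hr0 l).symm.trans (hr1 l)
      have := mul_right_cancel₀ hl' this
      linarith
    subst hκ
    have hint : κ0 = ((N0 - N1 : ℤ) : ℚ) := by push_cast; rw [hN0, hN1]; push_cast; ring
    refine ⟨N0 - N1, ?_, fun l => ?_, ?_⟩
    · have : (0 : ℚ) < ((N0 - N1 : ℤ) : ℚ) := by rw [← hint]; exact hk0
      exact_mod_cast this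
    · rw [← hint]; exact hr0 l
    · rw [← hint, mem_ZZ]
      exact ⟨N0, by rw [hN0]; push_cast; ring⟩
  obtain ⟨κ, hκ, hr, hb⟩ := key i j hi hcl
  obtain ⟨κ', hκ', hr', hb'⟩ := key j i hj hcl'
  obtain ⟨l, hl⟩ := Function.ne_iff.1 hi
  have hl' : (H.A i l : ℚ) ≠ 0 := by simpa using hl
  have h1 : (κ' : ℚ) * κ = 1 := by
    have := hr' l
    rw [hr l] at this
    have h2 : (κ' * κ - 1 : ℚ) * H.A i l = 0 := by linarith
    rcases mul_eq_zero.1 h2 with h | h
    · linarith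
    · exact absurd h hl'
  have h2 : κ' * κ = 1 := by exact_mod_cast h1
  have h3 : κ = 1 := by
    rcases Int.isUnit_iff.1 (IsUnit.of_mul_eq_one κ' (by rw [mul_comm]; exact h2)) with h | h
    · exact h
    · omega
  subst h3
  refine ⟨fun l => by rw [hr l]; push_cast; ring, ?_⟩
  simpa using hb

lemma block_vrow {k s : ℕ} (π : Fin k → Fin s) (H : Fam k)
    (hb : ∀ x, H.Mem x → ∀ j, ∃ n : ℤ, ∑ i ∈ univ.filter (fun i => π i = j), x i = n) (j : Fin s) :
    ∑ i ∈ blk π j, vrow H i = 0 := by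
  have hval : ∀ u : Fin H.d → ℚ, ∑ i ∈ blk π j, vval H u i ∈ ZZ := by
    intro u
    obtain ⟨n, hn⟩ := hb (vval H u) ⟨u, fun i => ⟨0, by simp [vval]⟩⟩ j
    exact mem_ZZ.2 ⟨n, hn⟩
  funext l
  rw [Finset.sum_apply, Pi.zero_apply]
  by_contra hne
  set g := ∑ i ∈ blk π j, vrow H i l with hg
  have h0 := hval 0
  have h1 := hval (fun l' => if l' = l then 1 / (2 * g) else 0)
  have h2 : ∑ i ∈ blk π j, vval H (fun l' => if l' = l then 1 / (2 * g) else 0) i
      - ∑ i ∈ blk π j, vval H 0 i = 1 / 2 := by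
    rw [← Finset.sum_sub_distrib]
    have : ∀ i ∈ blk π j, vval H (fun l' => if l' = l then 1 / (2 * g) else 0) i - vval H 0 i
        = vrow H i l * (1 / (2 * g)) := by
      intro i _
      simp [vval, vrow]
    rw [Finset.sum_congr rfl this, ← Finset.sum_mul, ← hg]
    field_simp
  have h3 := ZZ.sub_mem h1 h0
  rw [h2, mem_ZZ] at h3
  obtain ⟨n, hn⟩ := h3
  have : (1 : ℚ) = ((2 * n : ℤ) : ℚ) := by push_cast; rw [← hn]; norm_num
  have : (1 : ℤ) = 2 * n := by exact_mod_cast this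
  omega

/-- every linearly independent set of rows extends to a frame -/
lemma frame_ext {k s : ℕ} (π : Fin k → Fin s) (H : Fam k) (τ : Fin k → Fin k) (κ : Fin k → ℚ)
    (hτ : ∀ i, H.A i ≠ 0 → τ i ≠ i ∧ κ i ≠ 0 ∧ vrow H (τ i) = κ i • vrow H i)
    (hno : ¬ ∃ T : Finset (Fin k), 2 * T.card + oddBlocks π < k ∧
      ∀ j, ∃ D : ℤ, D ≠ 0 ∧ ∃ c : Fin k → ℤ, ∀ l, D * H.A j l = ∑ i ∈ T, c i * H.A i l)
    (S : Set (Fin k)) (hS : LinearIndepOn ℚ (vrow H) S) :
    ∃ T : Finset (Fin k), (∀ i ∈ S, i ∈ T) ∧ Frame (vrow H) T τ κ ∧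
      (rest T τ).card ≤ oddBlocks π := by
  classical
  obtain ⟨b, -, hSb, hspan, hind⟩ := exists_linearIndepOn_extension hS (Set.subset_univ S)
  set T : Finset (Fin k) := univ.filter (fun i => i ∈ b) with hT
  have hTb : (T : Set (Fin k)) = b := by ext i; simp [hT]
  rw [← hTb] at hind hspan
  have hind' := linearIndepOn_finset_iff.1 hind
  have hne : ∀ i ∈ T, H.A i ≠ 0 := by
    intro i hi
    rw [← vrow_ne]
    exact hind.ne_zero hi
  have F : Frame (vrow H) T τ κ :=
    ⟨hind', fun i hi => (hτ i (hne i hi)).1, fun i hi => (hτ i (hne i hi)).2.1,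
      fun i hi => (hτ i (hne i hi)).2.2⟩
  refine ⟨T, fun i hi => by rw [hT, mem_filter]; exact ⟨mem_univ _, hSb hi⟩, F, ?_⟩
  have hcard := F.card_rest
  by_contra hcon
  push Not at hcon
  apply hno
  refine ⟨T, by omega, fun j => ?_⟩
  have hj : vrow H j ∈ Submodule.span ℚ (vrow H '' (T : Set (Fin k))) :=
    hspan ⟨j, Set.mem_univ _, rfl⟩
  rw [Submodule.mem_span_image_finset_iff_exists_fun'] at hj
  obtain ⟨c, hc⟩ := hj
  have hDpos : (∏ i ∈ T, ((c i).den : ℤ)) ≠ 0 :=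
    Finset.prod_ne_zero_iff.2 fun i _ => by exact_mod_cast (c i).pos.ne'
  have hci : ∀ i ∈ T, ∃ z : ℤ, ((∏ i ∈ T, ((c i).den : ℤ) : ℤ) : ℚ) * c i = z := by
    intro i hi
    refine ⟨(∏ i' ∈ T.erase i, ((c i').den : ℤ)) * (c i).num, ?_⟩
    rw [← Finset.mul_prod_erase _ _ hi]
    push_cast
    rw [← Rat.mul_den_eq_num (c i)]
    ring
  choose! z hz using hci
  refine ⟨∏ i ∈ T, ((c i).den : ℤ), hDpos, z, fun l => ?_⟩
  have h1 := congrFun hc l
  rw [Finset.sum_apply] at h1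
  simp only [Pi.smul_apply, smul_eq_mul, vrow] at h1
  have h2 : (((∏ i ∈ T, ((c i).den : ℤ)) * H.A j l : ℤ) : ℚ) = ((∑ i ∈ T, z i * H.A i l : ℤ) : ℚ) := by
    rw [Int.cast_mul, ← h1, Finset.mul_sum, Int.cast_sum]
    refine Finset.sum_congr rfl fun i hi => ?_
    rw [Int.cast_mul, ← hz i hi]
    ring
  exact_mod_cast h2

theorem block_classes {k s : ℕ} (π : Fin k → Fin s) (H : Fam k) (hp : H.Pure)
    (hne : ∃ x, H.Mem x ∧ ∀ i, Int.fract (x i) ≠ 0)
    (hb : ∀ x, H.Mem x → ∀ j, ∃ n : ℤ, ∑ i ∈ univ.filter (fun i => π i = j), x i = n) :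
    (∀ x, H.Mem x → PairedQ x) ∨
    ∃ T : Finset (Fin k), 2 * T.card + oddBlocks π < k ∧
      ∀ j, ∃ D : ℤ, D ≠ 0 ∧ ∃ c : Fin k → ℤ, ∀ l, D * H.A j l = ∑ i ∈ T, c i * H.A i l := by
  classical
  by_cases hno : ∃ T : Finset (Fin k), 2 * T.card + oddBlocks π < k ∧
      ∀ j, ∃ D : ℤ, D ≠ 0 ∧ ∃ c : Fin k → ℤ, ∀ l, D * H.A j l = ∑ i ∈ T, c i * H.A i l
  · exact Or.inr hno
  left
  have hz : ∀ j, H.A j = 0 → Int.fract (H.b j) ≠ 0 := by
    intro j hj h0
    obtain ⟨x, ⟨u, hu⟩, hx⟩ := hne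
    obtain ⟨n, hn⟩ := hu j
    apply hx j
    rw [hn, hj, Int.fract_add_intCast]
    simp only [Pi.zero_apply, Int.cast_zero, zero_mul, Finset.sum_const_zero, zero_add]
    exact h0
  -- partners
  have hpart : ∀ i, ∃ j : Fin k, ∃ c : ℚ, H.A i ≠ 0 → (j ≠ i ∧ c ≠ 0 ∧ vrow H j = c • vrow H i) := by
    intro i
    by_cases hi : H.A i = 0
    · exact ⟨i, 0, fun h => absurd hi h⟩
    · obtain ⟨j, h0, -, c, hc, hr, -⟩ := CL_partner H hp hz i hi 0
      refine ⟨j, -c, fun _ => ⟨h0, by simpa using hc.ne', ?_⟩⟩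
      funext l
      exact hr l
  choose τ κ hτ using hpart
  have hblk := block_vrow π H hb
  have hvalB : ∀ (u : Fin H.d → ℚ) (j : Fin s), ∑ i ∈ blk π j, vval H u i ∈ ZZ := by
    intro u j
    obtain ⟨n, hn⟩ := hb (vval H u) ⟨u, fun i => ⟨0, by simp [vval]⟩⟩ j
    exact mem_ZZ.2 ⟨n, hn⟩
  -- values of exact pairs are opposite modulo 1
  have hpairval : ∀ i j : Fin k, (∀ l, (H.A j l : ℚ) = - H.A i l) → H.b i + H.b j ∈ ZZ →
      ∀ u, vval H u i + vval H u j ∈ ZZ := by
    intro i j h1 h2 u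
    have : vval H u i + vval H u j = H.b i + H.b j := by
      unfold vval
      have : ∑ l, (H.A j l : ℚ) * u l = - ∑ l, (H.A i l : ℚ) * u l := by
        rw [← Finset.sum_neg_distrib]
        exact Finset.sum_congr rfl fun l _ => by rw [h1 l]; ring
      rw [this]; ring
    rw [this]; exact h2
  -- no zero row
  have hnz : ∀ i, H.A i ≠ 0 := by
    intro i0 h0
    obtain ⟨T, -, F, heq⟩ := frame_ext π H τ κ hτ hno ∅ (linearIndepOn_empty ℚ _)
    have hv0 : vrow H i0 = 0 := by funext l; simp [vrow, h0]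
    have hi0 : i0 ∈ rest T τ := by
      rw [rest, mem_filter]
      refine ⟨mem_univ _, fun h => F.ne_zero h hv0, fun h => ?_⟩
      obtain ⟨i, hi, h'⟩ := mem_image.1 h
      have h1 := F.rel i hi
      rw [h', hv0] at h1
      rcases smul_eq_zero.1 h1.symm with h2 | h2
      · exact F.kne i hi h2
      · exact F.ne_zero hi h2
    have hfil := F.filter_rest_eq π hblk heq hi0
    have hcoef : ∀ i ∈ T, (i ∈ blk π (π i0) ↔ τ i ∈ blk π (π i0)) := fun i hi =>
      F.coeff _ (hblk _) (by rw [hfil, Finset.sum_singleton, hv0]) i hi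
    have hex : ∀ j ∈ T, j ∈ blk π (π i0) → vval H 0 j + vval H 0 (τ j) ∈ ZZ := by
      intro j hj hjB
      have hAj : H.A j ≠ 0 := vrow_ne H |>.1 (F.ne_zero hj)
      have hcl : ∀ l, Par (H.A l) (H.A j) → l = j ∨ l = τ j := by
        intro w hw
        by_contra hcon
        push Not at hcon
        obtain ⟨c, hc, hcv⟩ := smul_of_par H hw
        obtain ⟨h1, h2, -, -⟩ := F.third π hblk heq hj hcon.1 hcon.2 c hc hcv
        have h3 := (F.rest_inj π hblk heq).1 w h1 i0 hi0 (by rw [← h2]; exact Frame.mem_blk.1 hjB)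
        rw [h3, hv0] at hcv
        rcases smul_eq_zero.1 hcv.symm with h4 | h4
        · exact hc h4
        · exact F.ne_zero hj h4
      obtain ⟨h1, h2⟩ := BM_exact H hp hz j (τ j) hAj
        (par_of_smul H _ (F.kne j hj) (F.rel j hj)) hcl
      exact hpairval j (τ j) h1 h2 0
    have hdec := F.decomp (blk π (π i0)) (vval H 0)
    rw [hfil, Finset.sum_singleton] at hdec
    have hS : ∑ i ∈ T, ((if i ∈ blk π (π i0) then vval H 0 i else 0) +
        (if τ i ∈ blk π (π i0) then vval H 0 (τ i) else 0)) ∈ ZZ := by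
      refine ZZ.sum_mem fun i hi => ?_
      by_cases hB : i ∈ blk π (π i0)
      · rw [if_pos hB, if_pos ((hcoef i hi).1 hB)]
        exact hex i hi hB
      · rw [if_neg hB, if_neg (fun h => hB ((hcoef i hi).2 h)), add_zero]
        exact ZZ.zero_mem
    have h1 := hvalB 0 (π i0)
    rw [hdec] at h1
    have h2 : vval H 0 i0 ∈ ZZ := by
      have := ZZ.sub_mem h1 hS
      rwa [add_sub_cancel_right] at this
    have h3 : vval H 0 i0 = H.b i0 := by simp [vval]
    rw [h3, ← fract_zero_iff] at h2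
    exact hz i0 h0 h2
  -- all classes have two elements
  have hcl2 : ∀ i u, Par (H.A u) (H.A i) → u = i ∨ u = τ i := by
    intro i u hu
    by_contra hcon
    push Not at hcon
    obtain ⟨hui, huτ⟩ := hcon
    have hi0 := hnz i
    obtain ⟨T, hTS, F, heq⟩ := frame_ext π H τ κ hτ hno {i}
      ((linearIndepOn_singleton_iff ℚ).2 ((vrow_ne H).2 hi0))
    have hiT : i ∈ T := hTS i rfl
    obtain ⟨c, hc, hcv⟩ := smul_of_par H hu
    obtain ⟨hur, hπi, hπτ, hoth⟩ := F.third π hblk heq hiT hui huτ c hc hcv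
    have hfil := F.filter_rest_eq π hblk heq hur
    -- the class of `i`
    have hcls : ∀ w, Par (H.A w) (H.A i) → w = i ∨ w = τ i ∨ w = u := by
      intro w hw
      by_contra hcon
      push Not at hcon
      obtain ⟨c', hc', hcv'⟩ := smul_of_par H hw
      obtain ⟨h1, h2, -, -⟩ := F.third π hblk heq hiT hcon.1 hcon.2.1 c' hc' hcv'
      exact hcon.2.2 ((F.rest_inj π hblk heq).1 w h1 u hur (by rw [← h2, hπi]))
    have hex : ∀ j ∈ T, j ≠ i → j ∈ blk π (π u) → ∀ y, vval H y j + vval H y (τ j) ∈ ZZ := by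
      intro j hj hji hjB
      have hcl : ∀ l, Par (H.A l) (H.A j) → l = j ∨ l = τ j := by
        intro w hw
        by_contra hcon
        push Not at hcon
        obtain ⟨c', hc', hcv'⟩ := smul_of_par H hw
        obtain ⟨h1, h2, -, -⟩ := F.third π hblk heq hj hcon.1 hcon.2 c' hc' hcv'
        have h3 := (F.rest_inj π hblk heq).1 w h1 u hur (by rw [← h2]; exact Frame.mem_blk.1 hjB)
        subst h3
        have h4 : Par (H.A j) (H.A i) := CL_trans (CL_symm hw) hu
        obtain ⟨c'', hc'', hcv''⟩ := smul_of_par H h4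
        exact hji (F.eq_of_par hiT hj c'' hcv'').symm
      obtain ⟨h1, h2⟩ := BM_exact H hp hz j (τ j) (hnz j)
        (par_of_smul H _ (F.kne j hj) (F.rel j hj)) hcl
      exact hpairval j (τ j) h1 h2
    -- the sum of the three values is an integer
    have hthree : ∀ y, vval H y u + (vval H y i + vval H y (τ i)) ∈ ZZ := by
      intro y
      have hdec := F.decomp (blk π (π u)) (vval H y)
      rw [hfil, Finset.sum_singleton, ← Finset.add_sum_erase _ _ hiT,
        if_pos (Frame.mem_blk.2 hπi), if_pos (Frame.mem_blk.2 hπτ)] at hdec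
      have hS : ∑ j ∈ T.erase i, ((if j ∈ blk π (π u) then vval H y j else 0) +
          (if τ j ∈ blk π (π u) then vval H y (τ j) else 0)) ∈ ZZ := by
        refine ZZ.sum_mem fun j hj => ?_
        rw [Finset.mem_erase] at hj
        have hiff := hoth j hj.2 hj.1
        by_cases hB : π j = π u
        · rw [if_pos (Frame.mem_blk.2 hB), if_pos (Frame.mem_blk.2 (hiff.1 hB))]
          exact hex j hj.2 hj.1 (Frame.mem_blk.2 hB) y
        · rw [if_neg (fun h => hB (Frame.mem_blk.1 h)),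
            if_neg (fun h => hB (hiff.2 (Frame.mem_blk.1 h))), add_zero]
          exact ZZ.zero_mem
      have h1 := hvalB y (π u)
      rw [hdec] at h1
      have h2 := ZZ.sub_mem h1 hS
      have h3 : vval H y u + (vval H y i + vval H y (τ i) +
          ∑ j ∈ T.erase i, ((if j ∈ blk π (π u) then vval H y j else 0) +
          (if τ j ∈ blk π (π u) then vval H y (τ j) else 0))) -
          ∑ j ∈ T.erase i, ((if j ∈ blk π (π u) then vval H y j else 0) +
          (if τ j ∈ blk π (π u) then vval H y (τ j) else 0)) =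
          vval H y u + (vval H y i + vval H y (τ i)) := by ring
      rwa [h3] at h2
    -- jump
    obtain ⟨y, hy1, hy2⟩ := wall H i hi0 0
    have hJ : ∀ l, vval H y l ∈ ZZ → l = i ∨ l = τ i ∨ l = u := by
      intro l hl
      apply hcls
      by_contra hnp
      exact hy2 l (hnz l) hnp (fract_zero_iff.2 hl)
    have hiJ : vval H y i ∈ ZZ := mem_ZZ.2 ⟨0, hy1⟩
    have hN := WP_sq_pos (H.A i) hi0
    have hdot : ∀ j, Par (H.A j) (H.A i) → ∑ l, (H.A j l : ℚ) * (H.A i l : ℚ) ≠ 0 := by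
      intro j hj h0
      obtain ⟨c', hc', hcv'⟩ := smul_of_par H hj
      have : ∑ l, (H.A j l : ℚ) * (H.A i l : ℚ) = c' * ∑ l, (H.A i l : ℚ) * (H.A i l : ℚ) := by
        rw [Finset.mul_sum]
        refine Finset.sum_congr rfl fun l _ => ?_
        have := congrFun hcv' l
        simp only [vrow, Pi.smul_apply, smul_eq_mul] at this
        rw [this]; ring
      rw [this] at h0
      rcases mul_eq_zero.1 h0 with h | h
      · exact hc' h
      · exact hN.ne' h
    have hparJ : ∀ l, vval H y l ∈ ZZ → Par (H.A l) (H.A i) := by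
      intro l hl
      by_contra hnp
      exact hy2 l (hnz l) hnp (fract_zero_iff.2 hl)
    have hjump := jump H hp y (fun l => (H.A i l : ℚ)) (fun j hj =>
      hdot j (hparJ j (fract_zero_iff.1 hj)))
    set P := univ.filter (fun j => Int.fract (∑ l, (H.A j l : ℚ) * y l + H.b j) = 0 ∧
        0 < ∑ l, (H.A j l : ℚ) * (H.A i l : ℚ)) with hP
    set Q := univ.filter (fun j => Int.fract (∑ l, (H.A j l : ℚ) * y l + H.b j) = 0 ∧
        ∑ l, (H.A j l : ℚ) * (H.A i l : ℚ) < 0) with hQ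
    have hPQ : Disjoint P Q := by
      rw [Finset.disjoint_left]
      intro l h1 h2
      rw [hP, mem_filter] at h1
      rw [hQ, mem_filter] at h2
      exact absurd h1.2.2 (not_lt.2 h2.2.2.le)
    have hmem : ∀ l, vval H y l ∈ ZZ ↔ l ∈ P ∪ Q := by
      intro l
      rw [mem_union, hP, hQ, mem_filter, mem_filter]
      constructor
      · intro h
        have h1 := fract_zero_iff.2 h
        rcases lt_trichotomy (∑ l', (H.A l l' : ℚ) * (H.A i l' : ℚ)) 0 with h2 | h2 | h2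
        · exact Or.inr ⟨mem_univ _, h1, h2⟩
        · exact absurd h2 (hdot l (hparJ l h))
        · exact Or.inl ⟨mem_univ _, h1, h2⟩
      · rintro (h | h)
        · exact fract_zero_iff.1 h.2.1
        · exact fract_zero_iff.1 h.2.1
    have hcardPQ : (P ∪ Q).card = P.card + Q.card := Finset.card_union_of_disjoint hPQ
    have hiP : i ∈ P := by
      rw [hP, mem_filter]
      exact ⟨mem_univ _, fract_zero_iff.2 hiJ, hN⟩
    -- some other index is in `Q`
    have hQpos : 0 < Q.card := by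
      have : 0 < P.card := Finset.card_pos.2 ⟨i, hiP⟩
      omega
    obtain ⟨l, hlQ⟩ := Finset.card_pos.1 hQpos
    have hlJ : vval H y l ∈ ZZ := (hmem l).2 (mem_union_right _ hlQ)
    have hli : l ≠ i := by
      rintro rfl
      exact (Finset.disjoint_left.1 hPQ) hiP hlQ
    have hτi : τ i ≠ i := F.ne i hiT
    -- all three are integers
    have hall : vval H y (τ i) ∈ ZZ ∧ vval H y u ∈ ZZ := by
      have h3 := hthree y
      rcases hJ l hlJ with h | h | h
      · exact absurd h hli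
      · rw [h] at hlJ
        refine ⟨hlJ, ?_⟩
        have := ZZ.sub_mem h3 (ZZ.add_mem hiJ hlJ)
        rwa [add_sub_cancel_right] at this
      · rw [h] at hlJ
        refine ⟨?_, hlJ⟩
        have h4 := ZZ.sub_mem (ZZ.sub_mem h3 hlJ) hiJ
        have : vval H y u + (vval H y i + vval H y (τ i)) - vval H y u - vval H y i
          = vval H y (τ i) := by ring
        rwa [this] at h4
    have hset : P ∪ Q = {i, τ i, u} := by
      ext w
      rw [← hmem, mem_insert, mem_insert, mem_singleton]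
      constructor
      · exact hJ w
      · rintro (h | h | h)
        · rw [h]; exact hiJ
        · rw [h]; exact hall.1
        · rw [h]; exact hall.2
    have hcard3 : ({i, τ i, u} : Finset (Fin k)).card = 3 := by
      rw [Finset.card_insert_of_notMem, Finset.card_pair (Ne.symm huτ)]
      rw [mem_insert, mem_singleton, not_or]
      exact ⟨Ne.symm hτi, Ne.symm hui⟩
    rw [hset, hcard3] at hcardPQ
    omega
  -- conclusion
  have hpar : ∀ i, Par (H.A (τ i)) (H.A i) := fun i =>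
    par_of_smul H _ (hτ i (hnz i)).2.1 (hτ i (hnz i)).2.2
  have hinv : ∀ i, τ (τ i) = i := by
    intro i
    rcases hcl2 i (τ (τ i)) (CL_trans (hpar (τ i)) (hpar i)) with h | h
    · exact h
    · exact absurd h (hτ (τ i) (hnz _)).1
  intro x hx
  refine ⟨Function.Involutive.toPerm τ hinv, fun i => (hτ i (hnz i)).1, hinv, fun i => ?_⟩
  obtain ⟨h1, h2⟩ := BM_exact H hp hz i (τ i) (hnz i) (hpar i) (hcl2 i)
  obtain ⟨y, hy⟩ := hx
  obtain ⟨n, hn⟩ := hy i
  obtain ⟨n', hn'⟩ := hy (τ i)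
  have h3 := hpairval i (τ i) h1 h2 y
  rw [mem_ZZ] at h3
  obtain ⟨N, hN⟩ := h3
  refine ⟨N + n + n', ?_⟩
  change x i + x (τ i) = _
  rw [hn, hn']
  push_cast
  rw [← hN]
  unfold vval
  ring

end Pool.Agent.helper76.FV
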