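import Pool.Agent.helper76.FV.Defs2

/-! # Combinatorics of configurations of vectors with vanishing block sums -/

namespace Pool.Agent.helper76.FV

open Finset

section BM

variable {k s : ℕ} {V : Type*} [AddCommGroup V] [Module ℚ V]

/-- a basis `T` of the configuration `v` together with partners -/
structure Frame (v : Fin k → V) (T : Finset (Fin k)) (τ : Fin k → Fin k) (κ : Fin k → ℚ) : Prop where
  indep : ∀ f : Fin k → ℚ, ∑ i ∈ T, f i • v i = 0 → ∀ i ∈ T, f i = 0
  ne : ∀ i ∈ T, τ i ≠ i
  kne : ∀ i ∈ T, κ i ≠ 0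
  rel : ∀ i ∈ T, v (τ i) = κ i • v i

/-- the indices outside `T` and outside its partners -/
def rest (T : Finset (Fin k)) (τ : Fin k → Fin k) : Finset (Fin k) :=
  univ.filter (fun l => l ∉ T ∧ l ∉ T.image τ)

namespace Frame

variable {v : Fin k → V} {T : Finset (Fin k)} {τ : Fin k → Fin k} {κ : Fin k → ℚ}

lemma ne_zero (F : Frame v T τ κ) {i : Fin k} (hi : i ∈ T) : v i ≠ 0 := by
  classical
  intro h
  have := F.indep (fun j => if j = i then 1 else 0) (by
    rw [Finset.sum_eq_single i]
    · simp [h]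
    · intro b _ hb; simp [hb]
    · intro h'; exact absurd hi h') i hi
  simp at this

lemma eq_of_par (F : Frame v T τ κ) {i j : Fin k} (hi : i ∈ T) (hj : j ∈ T) (c : ℚ)
    (h : v j = c • v i) : i = j := by
  classical
  by_contra hne
  have := F.indep (fun l => if l = i then c else if l = j then -1 else 0) (by
    rw [← Finset.add_sum_erase _ _ hi, ← Finset.add_sum_erase _ _ (Finset.mem_erase.2 ⟨Ne.symm hne, hj⟩)]
    rw [Finset.sum_eq_zero]
    · have h2 : ¬ j = i := Ne.symm hne
      simp [h2, h]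
    · intro l hl
      rw [Finset.mem_erase, Finset.mem_erase] at hl
      simp [hl.1, hl.2.1]) j hj
  have h2 : ¬ j = i := Ne.symm hne
  simp [h2] at this

lemma tau_notMem (F : Frame v T τ κ) {i : Fin k} (hi : i ∈ T) : τ i ∉ T := fun h =>
  F.ne i hi (F.eq_of_par hi h _ (F.rel i hi)).symm

lemma tau_inj (F : Frame v T τ κ) {i j : Fin k} (hi : i ∈ T) (hj : j ∈ T) (h : τ i = τ j) :
    i = j := by
  have h1 := F.rel i hi
  rw [h, F.rel j hj] at h1
  refine F.eq_of_par hi hj ((κ j)⁻¹ * κ i) ?_
  rw [mul_smul, ← h1, smul_smul, inv_mul_cancel₀ (F.kne j hj), one_smul]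

lemma decomp (F : Frame v T τ κ) {M : Type*} [AddCommMonoid M] (B : Finset (Fin k)) (g : Fin k → M) :
    ∑ l ∈ B, g l = ∑ l ∈ B.filter (fun l => l ∈ rest T τ), g l +
      ∑ i ∈ T, ((if i ∈ B then g i else 0) + (if τ i ∈ B then g (τ i) else 0)) := by
  classical
  rw [Finset.sum_add_distrib, ← Finset.sum_filter_add_sum_filter_not B (fun l => l ∈ rest T τ)]
  congr 1
  have h1 : ∑ i ∈ T, (if τ i ∈ B then g (τ i) else 0)
      = ∑ l ∈ T.image τ, (if l ∈ B then g l else 0) := by
    rw [Finset.sum_image]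
    intro i hi j hj hij
    exact F.tau_inj hi hj hij
  rw [h1, ← Finset.sum_filter, ← Finset.sum_filter, ← Finset.sum_union]
  · refine Finset.sum_congr ?_ fun _ _ => rfl
    ext l
    simp only [rest, mem_filter, mem_univ, true_and, mem_union, not_and_or, not_not]
    tauto
  · rw [Finset.disjoint_left]
    intro l hl hl'
    rw [mem_filter] at hl hl'
    obtain ⟨i, hi, rfl⟩ := mem_image.1 hl'.1
    exact F.tau_notMem hi hl.1

lemma card_rest (F : Frame v T τ κ) : (rest T τ).card + 2 * T.card = k := by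
  have := F.decomp univ (fun _ => (1 : ℕ))
  simp only [mem_univ, if_true, Finset.sum_const, smul_eq_mul, mul_one] at this
  rw [Finset.card_univ, Fintype.card_fin] at this
  have h2 : univ.filter (fun l => l ∈ rest T τ) = rest T τ := by ext l; simp
  rw [h2] at this
  omega

variable (π : Fin k → Fin s)

/-- the block of `j` -/
def blk (π : Fin k → Fin s) (j : Fin s) : Finset (Fin k) := univ.filter (fun i => π i = j)

lemma mem_blk {π : Fin k → Fin s} {j : Fin s} {i : Fin k} : i ∈ blk π j ↔ π i = j := by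
  simp [blk]

/-- relation of a block, with a vector of the rest multiple of `v i₀` -/
lemma coeff (F : Frame v T τ κ) (B : Finset (Fin k)) (hB : ∑ l ∈ B, v l = 0)
    (hrest : ∑ l ∈ B.filter (fun l => l ∈ rest T τ), v l = 0) (i : Fin k) (hi : i ∈ T) :
    (i ∈ B ↔ τ i ∈ B) := by
  classical
  have h := F.decomp B v
  rw [hB, hrest, zero_add] at h
  have h2 := F.indep (fun i => (if i ∈ B then 1 else 0) + (if τ i ∈ B then κ i else 0)) (by
    rw [h]
    refine Finset.sum_congr rfl fun j hj => ?_
    rw [add_smul]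
    congr 1
    · split_ifs <;> simp
    · split_ifs
      · rw [F.rel j hj]
      · simp) i hi
  have hk := F.kne i hi
  by_cases h3 : i ∈ B <;> by_cases h4 : τ i ∈ B <;> simp [h3, h4] at h2 ⊢
  exact hk h2

lemma card_even (F : Frame v T τ κ) (B : Finset (Fin k)) (h : ∀ i ∈ T, (i ∈ B ↔ τ i ∈ B)) :
    Even ((B.filter (fun l => l ∈ rest T τ)).card + B.card) := by
  classical
  have h1 := F.decomp B (fun _ => (1 : ℕ))
  have h2 : Even (∑ i ∈ T, ((if i ∈ B then 1 else 0) + (if τ i ∈ B then 1 else 0))) := by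
    refine Finset.even_sum _ fun i hi => ?_
    by_cases hb : i ∈ B
    · rw [if_pos hb, if_pos ((h i hi).1 hb)]; decide
    · rw [if_neg hb, if_neg (fun h' => hb ((h i hi).2 h'))]; decide
  simp only [Finset.sum_const, smul_eq_mul, mul_one] at h1
  rw [h1]
  obtain ⟨c, hc⟩ := h2
  rw [hc]
  exact ⟨(B.filter (fun l => l ∈ rest T τ)).card + c, by ring⟩

/-- every odd block meets the rest -/
lemma odd_subset (F : Frame v T τ κ) (hb : ∀ j, ∑ l ∈ blk π j, v l = 0) :
    univ.filter (fun j => Odd (bsize π j)) ⊆ (rest T τ).image π := by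
  classical
  intro j hj
  rw [mem_filter] at hj
  by_contra hcon
  have hempty : (blk π j).filter (fun l => l ∈ rest T τ) = ∅ := by
    rw [Finset.filter_eq_empty_iff]
    intro l hl hr
    exact hcon (mem_image.2 ⟨l, hr, mem_blk.1 hl⟩)
  have h1 := F.card_even (blk π j) (fun i hi => F.coeff _ (hb j) (by rw [hempty]; simp) i hi)
  rw [hempty, card_empty, zero_add] at h1
  have h2 : Odd (blk π j).card := hj.2
  exact (Nat.not_even_iff_odd.2 h2) h1

lemma rest_ge (F : Frame v T τ κ) (hb : ∀ j, ∑ l ∈ blk π j, v l = 0) :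
    oddBlocks π ≤ (rest T τ).card :=
  (Finset.card_le_card (F.odd_subset π hb)).trans Finset.card_image_le

/-- in the case of equality `π` is injective on the rest, and its blocks are odd -/
lemma rest_inj (F : Frame v T τ κ) (hb : ∀ j, ∑ l ∈ blk π j, v l = 0)
    (heq : (rest T τ).card ≤ oddBlocks π) :
    (∀ l ∈ rest T τ, ∀ l' ∈ rest T τ, π l = π l' → l = l') ∧ ∀ l ∈ rest T τ, Odd (bsize π (π l)) := by
  classical
  have h1 := F.odd_subset π hb
  have h2 : ((rest T τ).image π).card ≤ (rest T τ).card := Finset.card_image_le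
  have h3 : (univ.filter (fun j => Odd (bsize π j))).card = oddBlocks π := rfl
  have h4 := Finset.card_le_card h1
  have h5 : ((rest T τ).image π).card = (rest T τ).card := by omega
  have h6 : univ.filter (fun j => Odd (bsize π j)) = (rest T τ).image π :=
    Finset.eq_of_subset_of_card_le h1 (by omega)
  constructor
  · intro l hl l' hl' hll
    exact Finset.card_image_iff.1 h5 hl hl' hll
  · intro l hl
    have : π l ∈ univ.filter (fun j => Odd (bsize π j)) := by
      rw [h6]; exact mem_image_of_mem _ hl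
    exact (mem_filter.1 this).2

lemma filter_rest_eq (F : Frame v T τ κ) (hb : ∀ j, ∑ l ∈ blk π j, v l = 0)
    (heq : (rest T τ).card ≤ oddBlocks π) {u : Fin k} (hu : u ∈ rest T τ) :
    (blk π (π u)).filter (fun l => l ∈ rest T τ) = {u} := by
  ext l
  rw [mem_filter, mem_blk, mem_singleton]
  constructor
  · rintro ⟨h1, h2⟩
    exact (F.rest_inj π hb heq).1 l h2 u hu h1
  · rintro rfl
    exact ⟨rfl, hu⟩

/-- a third vector of a class -/
lemma third (F : Frame v T τ κ) (hb : ∀ j, ∑ l ∈ blk π j, v l = 0)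
    (heq : (rest T τ).card ≤ oddBlocks π) {i u : Fin k} (hi : i ∈ T) (h1 : u ≠ i) (h2 : u ≠ τ i)
    (c : ℚ) (hc : c ≠ 0) (hu : v u = c • v i) :
    u ∈ rest T τ ∧ π i = π u ∧ π (τ i) = π u ∧
      ∀ j ∈ T, j ≠ i → (π j = π u ↔ π (τ j) = π u) := by
  classical
  have hur : u ∈ rest T τ := by
    rw [rest, mem_filter]
    refine ⟨mem_univ _, fun h => h1 (F.eq_of_par hi h c hu).symm, fun h => ?_⟩
    obtain ⟨i', hi', h'⟩ := mem_image.1 h
    have h3 := F.rel i' hi'
    rw [h', hu] at h3
    have h4 : v i' = ((κ i')⁻¹ * c) • v i := by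
      rw [mul_smul, h3, smul_smul, inv_mul_cancel₀ (F.kne i' hi'), one_smul]
    have h5 := F.eq_of_par hi hi' _ h4
    rw [← h5] at h'
    exact h2 h'.symm
  refine ⟨hur, ?_⟩
  set B := blk π (π u) with hBdef
  have hfil := F.filter_rest_eq π hb heq hur
  have h := F.decomp B v
  rw [hb, hfil, Finset.sum_singleton, hu] at h
  have hind := F.indep (fun j => (if j = i then c else 0) + ((if j ∈ B then 1 else 0) +
      (if τ j ∈ B then κ j else 0))) (by
    rw [h]
    have e1 : c • v i = ∑ j ∈ T, (if j = i then c else 0) • v j := by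
      rw [Finset.sum_eq_single i]
      · simp
      · intro b _ hb'; simp [hb']
      · intro h'; exact absurd hi h'
    rw [e1, ← Finset.sum_add_distrib]
    refine Finset.sum_congr rfl fun j hj => ?_
    rw [add_smul, add_smul]
    congr 2
    · split_ifs <;> simp
    · split_ifs
      · rw [F.rel j hj]
      · simp)
  have hother : ∀ j ∈ T, j ≠ i → (j ∈ B ↔ τ j ∈ B) := by
    intro j hj hji
    have h3 := hind j hj
    have hk := F.kne j hj
    by_cases h4 : j ∈ B <;> by_cases h5 : τ j ∈ B <;> simp [h4, h5, hji] at h3 ⊢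
    exact hk h3
  have hi' := hind i hi
  have hodd := (F.rest_inj π hb heq).2 u hur
  have hcard := F.decomp B (fun _ => (1 : ℕ))
  rw [← hBdef] at hfil
  rw [hfil, Finset.sum_singleton, Finset.sum_const, smul_eq_mul, mul_one,
    ← Finset.add_sum_erase _ _ hi] at hcard
  have heven : Even (∑ j ∈ T.erase i, ((if j ∈ B then 1 else 0) + (if τ j ∈ B then 1 else 0))) := by
    refine Finset.even_sum _ fun j hj => ?_
    rw [Finset.mem_erase] at hj
    have := hother j hj.2 hj.1
    by_cases hb' : j ∈ B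
    · rw [if_pos hb', if_pos (this.1 hb')]; decide
    · rw [if_neg hb', if_neg (fun h' => hb' (this.2 h'))]; decide
  have hBodd : Odd B.card := hodd
  obtain ⟨e, he⟩ := heven
  obtain ⟨o, ho⟩ := hBodd
  rw [he, ho] at hcard
  have hboth : i ∈ B ∧ τ i ∈ B := by
    by_cases h4 : i ∈ B <;> by_cases h5 : τ i ∈ B <;> simp [h4, h5, hc] at hi' hcard ⊢
    all_goals omega
  refine ⟨mem_blk.1 hboth.1, mem_blk.1 hboth.2, fun j hj hji => ?_⟩
  have := hother j hj hji
  rw [hBdef, mem_blk, mem_blk] at this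
  exact this

end Frame

end BM

end Pool.Agent.helper76.FV
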