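import Mathlib

/-! # Tate classes on Fermat varieties: definitions (project FV, MP_3703a7_ag) -/

namespace Pool.Agent.helper76.FV

open Finset

/-- `e y = exp (2 π i y)` -/
noncomputable def e (y : ℝ) : ℂ := Complex.exp (2 * Real.pi * Complex.I * y)

/-- the integers `0 ≤ t < M` prime to `M` and congruent to `t₀` modulo `q` -/
def TT (M q : ℕ) (t₀ : ℤ) : Finset ℕ :=
  (range M).filter (fun t => Nat.Coprime t M ∧ (q : ℤ) ∣ (t : ℤ) - t₀)

/-- Torsion points of `(ℝ/ℤ)^k` are represented by vectors of rational numbers.  `Tate x`: no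
coordinate is an integer, and for every integer `t` prime to all denominators the fractional
parts of the `t x_i` add up to `k/2`. -/
def Tate {k : ℕ} (x : Fin k → ℚ) : Prop :=
  (∀ i, Int.fract (x i) ≠ 0) ∧
  ∀ t : ℤ, (∀ i, IsCoprime t ((x i).den : ℤ)) → ∑ i, Int.fract ((t : ℚ) * x i) = (k : ℚ) / 2

/-- A family of torsion points: `x = A u + b` modulo 1, with `A` an integer matrix. -/
structure Fam (k : ℕ) where
  d : ℕ
  A : Fin k → Fin d → ℤ
  b : Fin k → ℚ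

/-- `x` belongs to the family, modulo integers -/
def Fam.Mem {k : ℕ} (H : Fam k) (x : Fin k → ℚ) : Prop :=
  ∃ u : Fin H.d → ℚ, ∀ i, ∃ n : ℤ, x i = ∑ j, (H.A i j : ℚ) * u j + H.b i + n

/-- all points of the family without integral coordinates satisfy `Tate` -/
def Fam.Pure {k : ℕ} (H : Fam k) : Prop :=
  ∀ x, H.Mem x → (∀ i, Int.fract (x i) ≠ 0) → Tate x

/-- two integer vectors are proportional (with nonzero factors) -/
def Par {d : ℕ} (a b : Fin d → ℤ) : Prop :=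
  ∃ p q : ℤ, p ≠ 0 ∧ q ≠ 0 ∧ ∀ l, p * a l = q * b l

/-- `a` is made of pairs `(c, -c)` -/
def Paired {k : ℕ} {G : Type*} [AddGroup G] (a : Fin k → G) : Prop :=
  ∃ σ : Equiv.Perm (Fin k), (∀ i, σ i ≠ i) ∧ (∀ i, σ (σ i) = i) ∧ ∀ i, a (σ i) = - a i

/-- the same modulo 1 -/
def PairedQ {k : ℕ} (x : Fin k → ℚ) : Prop :=
  ∃ σ : Equiv.Perm (Fin k), (∀ i, σ i ≠ i) ∧ (∀ i, σ (σ i) = i) ∧ ∀ i, ∃ n : ℤ, x i + x (σ i) = n

/-- fractional part form of the Tate condition, at level `m` -/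
def TateM (m : ℕ) {k : ℕ} (a : Fin k → ZMod m) : Prop :=
  (∀ i, a i ≠ 0) ∧ ∀ t : (ZMod m)ˣ, 2 * ∑ i, ((t : ZMod m) * a i).val = k * m

/-- the rational vector `a / m` -/
def frac (m : ℕ) {k : ℕ} (a : Fin k → ZMod m) : Fin k → ℚ := fun i => ((a i).val : ℚ) / m

/-- finite systems of equations `∑ c_i x_i = β` modulo 1 -/
abbrev Sys (k : ℕ) := List ((Fin k → ℤ) × ℚ)

/-- `x` satisfies the system -/
def Sat {k : ℕ} (E : Sys k) (x : Fin k → ℚ) : Prop :=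
  ∀ p ∈ E, ∃ n : ℤ, ∑ i, (p.1 i : ℚ) * x i = p.2 + n

/-- quasi-polynomials -/
def QP (f : ℕ → ℚ) : Prop :=
  ∃ N : ℕ, 0 < N ∧ ∃ P : ℕ → Polynomial ℚ, ∀ m : ℕ, 0 < m → f m = (P (m % N)).eval (m : ℚ)

/-- Frobenius form of the Tate condition: for all primes `p ≡ 1 (mod m)` and all characters `χ`
of `𝔽_p` of order `m`, the number `(∏ g(χ^{a_i}))² / p^k` is a root of unity. -/
def FrobTate (m : ℕ) {k : ℕ} (a : Fin k → ZMod m) : Prop :=
  ∀ p : ℕ, ∀ _ : Fact p.Prime, p ≡ 1 [MOD m] → ∀ χ : MulChar (ZMod p) ℂ, orderOf χ = m →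
    ∃ n : ℕ, 0 < n ∧
      ((∏ i, gaussSum (χ ^ (a i).val) (ZMod.stdAddChar (N := p))) ^ 2) ^ n = ((p : ℂ) ^ k) ^ n

end Pool.Agent.helper76.FV
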