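import Pool.Agent.helper19.FV.FA
import Pool.Agent.helper34.FV.CL
import Pool.Agent.helper34.FV.CT
import Pool.Agent.helper34.FV.FZ
import Pool.Agent.helper34.FV.PC
import Pool.Agent.helper48.FV.SY
import Pool.Agent.helper48.FV.Q2
import Pool.Agent.helper45.FV.QL

namespace Pool.Agent.helper76.FV

open Finset

/-- the family of all points -/
def fullFam (k : ℕ) : Fam k where
  d := k
  A := fun i j => if i = j then 1 else 0
  b := fun _ => 0

lemma fullFam_mem {k : ℕ} (x : Fin k → ℚ) : (fullFam k).Mem x := by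
  refine ⟨x, fun i => ⟨0, ?_⟩⟩
  change x i = ∑ j, (((if i = j then 1 else 0 : ℤ)) : ℚ) * x j + 0 + ((0 : ℤ) : ℚ)
  simp

/-- the set of exceptional characters is small -/
theorem exceptional (r : ℕ) : ∃ C : ℕ, ∀ m : ℕ, 0 < m →
    Set.ncard {a : Fin (2 * r + 2) → ZMod m | TateM m a ∧ ¬ Paired a} ≤ C * m ^ r := by
  classical
  obtain ⟨Ls, hLs, hcov⟩ := families (fullFam (2 * r + 2))
  -- for every family either all points are paired or there are few points
  have hkey : ∀ H ∈ Ls, ∃ C : ℕ, ∀ m : ℕ, 0 < m →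
      Set.ncard {a : Fin (2 * r + 2) → ZMod m | TateM m a ∧ ¬ Paired a ∧ H.Mem (frac m a)}
        ≤ C * m ^ r := by
    intro H hH
    by_cases hne : ∃ x, H.Mem x ∧ ∀ i, Int.fract (x i) ≠ 0
    · rcases classes H (hLs H hH).1 hne with hp | ⟨R, hRc, hR⟩
      · refine ⟨0, fun m hm => ?_⟩
        have : {a : Fin (2 * r + 2) → ZMod m | TateM m a ∧ ¬ Paired a ∧ H.Mem (frac m a)} = ∅ := by
          ext a
          simp only [Set.mem_ofPred_eq, Set.mem_empty_iff_false, iff_false]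
          rintro ⟨-, h2, h3⟩
          exact h2 ((pairedQ_iff m hm a).1 (hp _ h3))
        rw [this]; simp
      · obtain ⟨C, hC⟩ := count_le H R hR
        refine ⟨C, fun m hm => ?_⟩
        have : NeZero m := ⟨hm.ne'⟩
        refine (Set.ncard_le_ncard (t := {a : Fin (2 * r + 2) → ZMod m | H.Mem (frac m a)})
          (fun a ha => ha.2.2) (Set.toFinite _)).trans ((hC m hm).trans ?_)
        exact Nat.mul_le_mul_left _ (Nat.pow_le_pow_right hm hRc)
    · refine ⟨0, fun m hm => ?_⟩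
      have : {a : Fin (2 * r + 2) → ZMod m | TateM m a ∧ ¬ Paired a ∧ H.Mem (frac m a)} = ∅ := by
        ext a
        simp only [Set.mem_ofPred_eq, Set.mem_empty_iff_false, iff_false]
        rintro ⟨h1, -, h3⟩
        exact hne ⟨_, h3, ((tateM_iff m hm a).1 h1).1⟩
      rw [this]; simp
  choose! C hC using hkey
  refine ⟨(Ls.map C).sum, fun m hm => ?_⟩
  have : NeZero m := ⟨hm.ne'⟩
  have hsub : ∀ Ms : List (Fam (2 * r + 2)), (∀ H ∈ Ms, H ∈ Ls) →
      Set.ncard {a : Fin (2 * r + 2) → ZMod m | TateM m a ∧ ¬ Paired a ∧ ∃ H ∈ Ms, H.Mem (frac m a)}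
        ≤ (Ms.map C).sum * m ^ r := by
    intro Ms
    induction Ms with
    | nil => intro _; simp
    | cons H Ms ih =>
      intro h
      have h1 := hC H (h H (by simp)) m hm
      have h2 := ih (fun H' hH' => h H' (by simp [hH']))
      have hun : {a : Fin (2 * r + 2) → ZMod m | TateM m a ∧ ¬ Paired a ∧ ∃ H' ∈ H :: Ms, H'.Mem (frac m a)}
          ⊆ {a : Fin (2 * r + 2) → ZMod m | TateM m a ∧ ¬ Paired a ∧ H.Mem (frac m a)} ∪
            {a : Fin (2 * r + 2) → ZMod m | TateM m a ∧ ¬ Paired a ∧ ∃ H' ∈ Ms, H'.Mem (frac m a)} := by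
        rintro a ⟨g1, g2, H', hH', g3⟩
        rcases List.mem_cons.1 hH' with rfl | hH'
        · exact Or.inl ⟨g1, g2, g3⟩
        · exact Or.inr ⟨g1, g2, H', hH', g3⟩
      refine (Set.ncard_le_ncard hun (Set.toFinite _)).trans ((Set.ncard_union_le _ _).trans ?_)
      rw [List.map_cons, List.sum_cons, add_mul]
      exact Nat.add_le_add h1 h2
  refine le_trans (Set.ncard_le_ncard ?_ (Set.toFinite _)) (hsub Ls (fun _ h => h))
  rintro a ⟨h1, h2⟩
  exact ⟨h1, h2, hcov _ (fullFam_mem _) ((tateM_iff m hm a).1 h1)⟩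

/-- for an even number of indices the Tate condition forces `∑ a_i = 0` -/
lemma TateM_sum_zero (m : ℕ) (r : ℕ) (a : Fin (2 * r + 2) → ZMod m) (hm : 0 < m)
    (h : TateM m a) : ∑ i, a i = 0 := by
  have : NeZero m := ⟨hm.ne'⟩
  have h1 := h.2 1
  simp only [Units.val_one, one_mul] at h1
  have h2 : ∑ i, (a i).val = (r + 1) * m := by
    have : 2 * ∑ i, (a i).val = 2 * ((r + 1) * m) := by rw [h1]; ring
    exact Nat.eq_of_mul_eq_mul_left (by norm_num) this
  have h3 : ((∑ i, (a i).val : ℕ) : ZMod m) = ∑ i, a i := by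
    push_cast
    exact Finset.sum_congr rfl fun i _ => ZMod.natCast_zmod_val _
  rw [← h3, h2]; simp

/-! ### block sums -/

/-- the equations saying that the sum over every block is zero -/
def blockSys {k s : ℕ} (π : Fin k → Fin s) : Sys k :=
  (List.finRange s).map (fun j => ((fun i => if π i = j then 1 else 0), 0))

lemma sat_append {k : ℕ} (E E' : Sys k) (x : Fin k → ℚ) : Sat (E ++ E') x ↔ Sat E x ∧ Sat E' x := by
  unfold Sat
  constructor
  · intro h
    exact ⟨fun p hp => h p (List.mem_append.2 (Or.inl hp)), fun p hp => h p (List.mem_append.2 (Or.inr hp))⟩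
  · rintro ⟨h1, h2⟩ p hp
    rcases List.mem_append.1 hp with h | h
    · exact h1 p h
    · exact h2 p h

lemma sum_frac_int (m : ℕ) (hm : 0 < m) {k : ℕ} (a : Fin k → ZMod m) (S : Finset (Fin k)) :
    (∃ n : ℤ, ∑ i ∈ S, frac m a i = n) ↔ ∑ i ∈ S, a i = 0 := by
  have : NeZero m := ⟨hm.ne'⟩
  have hm' : (m : ℚ) ≠ 0 := by exact_mod_cast hm.ne'
  have h1 : ∑ i ∈ S, frac m a i = ((∑ i ∈ S, (a i).val : ℕ) : ℚ) / m := by
    unfold frac; push_cast; rw [Finset.sum_div]
  have h2 : ((∑ i ∈ S, (a i).val : ℕ) : ZMod m) = ∑ i ∈ S, a i := by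
    push_cast
    exact Finset.sum_congr rfl fun i _ => ZMod.natCast_zmod_val _
  rw [h1, ← h2, ZMod.natCast_eq_zero_iff]
  constructor
  · rintro ⟨n, hn⟩
    rw [div_eq_iff hm'] at hn
    have : ((∑ i ∈ S, (a i).val : ℕ) : ℤ) = n * m := by exact_mod_cast hn
    have h3 : (m : ℤ) ∣ ((∑ i ∈ S, (a i).val : ℕ) : ℤ) := ⟨n, by rw [this]; ring⟩
    exact_mod_cast h3
  · rintro ⟨c, hc⟩
    refine ⟨c, ?_⟩
    rw [hc]; push_cast; field_simp

lemma sat_blockSys (m : ℕ) (hm : 0 < m) {k s : ℕ} (π : Fin k → Fin s) (a : Fin k → ZMod m) :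
    Sat (blockSys π) (frac m a) ↔ ∀ j, ∑ i ∈ univ.filter (fun i => π i = j), a i = 0 := by
  classical
  unfold Sat blockSys
  have hsum : ∀ j : Fin s, ∑ i, (((if π i = j then 1 else 0 : ℤ)) : ℚ) * frac m a i
      = ∑ i ∈ univ.filter (fun i => π i = j), frac m a i := by
    intro j
    rw [Finset.sum_filter]
    refine Finset.sum_congr rfl fun i _ => ?_
    split_ifs <;> simp
  constructor
  · intro h j
    obtain ⟨n, hn⟩ := h ((fun i => if π i = j then 1 else 0), 0)
      (List.mem_map.2 ⟨j, List.mem_finRange j, rfl⟩)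
    rw [← sum_frac_int m hm]
    exact ⟨n, by rw [← hsum j, hn, zero_add]⟩
  · intro h p hp
    obtain ⟨j, -, rfl⟩ := List.mem_map.1 hp
    obtain ⟨n, hn⟩ := (sum_frac_int m hm a _).2 (h j)
    exact ⟨n, by rw [hsum j, hn, zero_add]⟩

/-- the systems `x_i = 0` -/
def zeroSys (k : ℕ) : List (Sys k) :=
  (List.finRange k).map (fun j => [((fun i => if i = j then 1 else 0), 0)])

lemma not_sat_zeroSys (m : ℕ) (hm : 0 < m) {k : ℕ} (a : Fin k → ZMod m) :
    (∀ E ∈ zeroSys k, ¬ Sat E (frac m a)) ↔ ∀ i, a i ≠ 0 := by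
  classical
  have key : ∀ j : Fin k, Sat [((fun i => if i = j then (1 : ℤ) else 0), (0 : ℚ))] (frac m a) ↔ a j = 0 := by
    intro j
    unfold Sat
    simp only [List.mem_singleton, forall_eq, zero_add]
    have h1 : ∑ i, (((if i = j then 1 else 0 : ℤ)) : ℚ) * frac m a i = ∑ i ∈ {j}, frac m a i := by
      rw [Finset.sum_eq_single j]
      · simp
      · intro b _ hb; simp [hb]
      · simp
    rw [h1, sum_frac_int m hm]; simp
  unfold zeroSys
  constructor
  · intro h i hi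
    exact h _ (List.mem_map.2 ⟨i, List.mem_finRange i, rfl⟩) ((key i).2 hi)
  · intro h E hE
    obtain ⟨j, -, rfl⟩ := List.mem_map.1 hE
    exact fun hs => h j ((key j).1 hs)

/-- Tate vectors with vanishing block sums, level `m` -/
def BlockTate (m : ℕ) {k s : ℕ} (π : Fin k → Fin s) (a : Fin k → ZMod m) : Prop :=
  (∀ j, ∑ i ∈ univ.filter (fun i => π i = j), a i = 0) ∧ TateM m a

/-- finitely many systems describe the Tate vectors of all levels -/
theorem block_systems {k s : ℕ} (π : Fin k → Fin s) : ∃ L : List (Sys k),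
    ∀ m : ℕ, 0 < m → ∀ a : Fin k → ZMod m, BlockTate m π a ↔
      (∃ E ∈ L, Sat E (frac m a)) ∧ ∀ E ∈ zeroSys k, ¬ Sat E (frac m a) := by
  classical
  obtain ⟨Ls, hLs, hcov⟩ := families (fullFam k)
  choose F hF using (fun H : Fam k => fam_sys H)
  refine ⟨Ls.map (fun H => F H ++ blockSys π), fun m hm a => ?_⟩
  rw [not_sat_zeroSys m hm]
  constructor
  · rintro ⟨hb, ht⟩
    refine ⟨?_, ht.1⟩
    obtain ⟨H, hH, hmem⟩ := hcov _ (fullFam_mem _) ((tateM_iff m hm a).1 ht)
    exact ⟨_, List.mem_map.2 ⟨H, hH, rfl⟩, (sat_append _ _ _).2 ⟨(hF H _).1 hmem,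
      (sat_blockSys m hm π a).2 hb⟩⟩
  · rintro ⟨⟨E, hE, hs⟩, h0⟩
    obtain ⟨H, hH, rfl⟩ := List.mem_map.1 hE
    rw [sat_append] at hs
    refine ⟨(sat_blockSys m hm π a).1 hs.2, (tateM_iff m hm a).2 ?_⟩
    refine (hLs H hH).1 _ ((hF H _).2 hs.1) (fun i hi => ?_)
    rw [Int.fract_eq_zero_iff] at hi
    obtain ⟨n, hn⟩ := hi
    apply h0 i
    have := (sum_frac_int m hm a {i}).1 ⟨n, by simpa using hn.symm⟩
    simpa using this

theorem block_qp {k s : ℕ} (π : Fin k → Fin s) :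
    QP (fun m => (Set.ncard {a : Fin k → ZMod m | BlockTate m π a} : ℚ)) := by
  obtain ⟨L, hL⟩ := block_systems π
  obtain ⟨N, hN, P, hP⟩ := bool_qp L (zeroSys k)
  refine ⟨N, hN, P, fun m hm => ?_⟩
  rw [← hP m hm]
  have : {a : Fin k → ZMod m | BlockTate m π a} = {a : Fin k → ZMod m |
      (∃ E ∈ L, Sat E (frac m a)) ∧ ∀ E ∈ zeroSys k, ¬ Sat E (frac m a)} := by
    ext a
    exact hL m hm a
  change ((Set.ncard {a : Fin k → ZMod m | BlockTate m π a} : ℕ) : ℚ) = _
  rw [this]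

/-- matrix of the family of all vectors with integral block sums -/
def bA {k s : ℕ} (π : Fin k → Fin s) (ℓ : Fin s → Fin k) (i j : Fin k) : ℤ :=
  if i = ℓ (π i) then (if j ≠ i ∧ π j = π i then -1 else 0) else if i = j then 1 else 0

/-- the family of all vectors with integral block sums -/
def blockFam {k s : ℕ} (π : Fin k → Fin s) (ℓ : Fin s → Fin k) : Fam k where
  d := k
  A := bA π ℓ
  b := fun _ => 0

lemma bA_row {k s : ℕ} (π : Fin k → Fin s) (ℓ : Fin s → Fin k) (i : Fin k) (u : Fin k → ℚ) :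
    ∑ l, (bA π ℓ i l : ℚ) * u l = if i = ℓ (π i) then
      - ∑ l ∈ (univ.filter (fun l => π l = π i)).erase i, u l else u i := by
  classical
  unfold bA
  split_ifs with h
  · have h1 : ∀ l, (((if l ≠ i ∧ π l = π i then -1 else 0 : ℤ)) : ℚ) * u l
        = if l ∈ (univ.filter (fun l => π l = π i)).erase i then - u l else 0 := by
      intro l
      by_cases hl : l ≠ i ∧ π l = π i
      · rw [if_pos hl, if_pos]
        · push_cast; ring
        · rw [Finset.mem_erase, mem_filter]; exact ⟨hl.1, mem_univ _, hl.2⟩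
      · rw [if_neg hl, if_neg]
        · simp
        · rw [Finset.mem_erase, mem_filter]; rintro ⟨h1, -, h2⟩; exact hl ⟨h1, h2⟩
    rw [Finset.sum_congr rfl (fun l _ => h1 l), Finset.sum_ite_mem, univ_inter,
      Finset.sum_neg_distrib]
  · simp

lemma bA_sum {k s : ℕ} (π : Fin k → Fin s) (ℓ : Fin s → Fin k)
    (hℓ : ∀ i, π (ℓ (π i)) = π i) (u : Fin k → ℚ) (j : Fin s) :
    ∑ i ∈ univ.filter (fun i => π i = j), ∑ l, (bA π ℓ i l : ℚ) * u l = 0 := by
  classical
  by_cases hj : ∃ i, π i = j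
  · obtain ⟨i0, hi0⟩ := hj
    have hl : π (ℓ j) = j := by rw [← hi0]; exact hℓ i0
    have hmem : ℓ j ∈ univ.filter (fun i => π i = j) := by simp [hl]
    have h1 : ∑ i ∈ (univ.filter (fun i => π i = j)).erase (ℓ j), ∑ l, (bA π ℓ i l : ℚ) * u l
        = ∑ i ∈ (univ.filter (fun i => π i = j)).erase (ℓ j), u i := by
      refine Finset.sum_congr rfl fun i hi => ?_
      rw [Finset.mem_erase, mem_filter] at hi
      rw [bA_row, if_neg]
      rw [hi.2.2]; exact hi.1
    rw [← Finset.add_sum_erase _ _ hmem, h1, bA_row, if_pos (by rw [hl]), hl]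
    ring
  · have : univ.filter (fun i => π i = j) = ∅ := by
      rw [Finset.filter_eq_empty_iff]
      intro i _ hi
      exact hj ⟨i, hi⟩
    rw [this]; simp

lemma blockFam_mem {k s : ℕ} (π : Fin k → Fin s) (ℓ : Fin s → Fin k)
    (hℓ : ∀ i, π (ℓ (π i)) = π i) (x : Fin k → ℚ) :
    (blockFam π ℓ).Mem x ↔ ∀ j, ∃ n : ℤ, ∑ i ∈ univ.filter (fun i => π i = j), x i = n := by
  classical
  constructor
  · rintro ⟨u, hu⟩ j
    change Fin k → ℚ at u
    replace hu : ∀ i, ∃ n : ℤ, x i = ∑ l, (bA π ℓ i l : ℚ) * u l + 0 + n := hu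
    choose n hn using hu
    refine ⟨∑ i ∈ univ.filter (fun i => π i = j), n i, ?_⟩
    rw [Finset.sum_congr rfl (fun i _ => hn i)]
    simp only [Finset.sum_add_distrib]
    rw [bA_sum π ℓ hℓ u j]
    simp
  · intro h
    choose n hn using h
    refine ⟨x, fun i => ?_⟩
    change ∃ n : ℤ, x i = ∑ l, (bA π ℓ i l : ℚ) * x l + 0 + n
    rw [bA_row]
    by_cases hi : i = ℓ (π i)
    · refine ⟨n (π i), ?_⟩
      rw [if_pos hi]
      have hmem : i ∈ univ.filter (fun i' => π i' = π i) := by simp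
      have h2 := hn (π i)
      rw [← Finset.add_sum_erase _ _ hmem] at h2
      linarith
    · refine ⟨0, ?_⟩
      rw [if_neg hi]; simp

/-- finitely many families describe the Tate vectors of all levels -/
theorem block_families {k s : ℕ} (π : Fin k → Fin s) : ∃ L : List (Fam k),
    ∀ m : ℕ, 0 < m → ∀ a : Fin k → ZMod m, BlockTate m π a ↔
      (∀ i, a i ≠ 0) ∧ ∃ H ∈ L, H.Mem (frac m a) := by
  classical
  rcases Nat.eq_zero_or_pos k with rfl | hk
  · -- no index at all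
    refine ⟨[fullFam 0], fun m hm a => ⟨fun _ => ⟨fun i => i.elim0, _, List.mem_singleton.2 rfl, fullFam_mem _⟩, fun _ => ⟨fun j => ?_, fun i => i.elim0, fun t => ?_⟩⟩⟩
    · rw [Finset.sum_eq_zero]; intro i; exact i.elim0
    · simp
  have : Nonempty (Fin k) := ⟨⟨0, hk⟩⟩
  let ℓ : Fin s → Fin k := fun j => if h : ∃ i, π i = j then h.choose else Classical.arbitrary _
  have hℓ : ∀ i, π (ℓ (π i)) = π i := by
    intro i
    have h : ∃ i', π i' = π i := ⟨i, rfl⟩
    simp only [ℓ, dif_pos h]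
    exact h.choose_spec
  obtain ⟨Ls, hLs, hcov⟩ := families (blockFam π ℓ)
  refine ⟨Ls, fun m hm a => ?_⟩
  have hblock : (blockFam π ℓ).Mem (frac m a) ↔
      ∀ j, ∑ i ∈ univ.filter (fun i => π i = j), a i = 0 := by
    rw [blockFam_mem π ℓ hℓ]
    exact forall_congr' fun j => sum_frac_int m hm a _
  constructor
  · rintro ⟨hb, ht⟩
    exact ⟨ht.1, hcov _ (hblock.2 hb) ((tateM_iff m hm a).1 ht)⟩
  · rintro ⟨h0, H, hH, hmem⟩
    refine ⟨hblock.1 ((hLs H hH).2 _ hmem), (tateM_iff m hm a).2 ((hLs H hH).1 _ hmem fun i hi => ?_)⟩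
    rw [Int.fract_eq_zero_iff] at hi
    obtain ⟨n, hn⟩ := hi
    apply h0 i
    have := (sum_frac_int m hm a {i}).1 ⟨n, by simpa using hn.symm⟩
    simpa using this

end Pool.Agent.helper76.FV
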