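import Pool.Agent.helper76.FV.Defs

namespace Pool.Agent.helper76.FV

open Finset

lemma e_add (x y : ℝ) : e (x + y) = e x * e y := by
  unfold e; rw [← Complex.exp_add]; congr 1; push_cast; ring

lemma e_int (n : ℤ) : e (n : ℝ) = 1 := by
  unfold e
  have := Complex.exp_int_mul_two_pi_mul_I n
  rw [← this]; congr 1; push_cast; ring

lemma e_zero : e 0 = 1 := by simpa using e_int 0

lemma e_add_int (x : ℝ) (n : ℤ) : e (x + n) = e x := by rw [e_add, e_int, mul_one]

lemma e_nat_mul (n : ℕ) (y : ℝ) : e ((n : ℝ) * y) = e y ^ n := by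
  unfold e; rw [← Complex.exp_nat_mul]; congr 1; push_cast; ring

lemma norm_e (x : ℝ) : ‖e x‖ = 1 := by
  unfold e
  have : (2 * (Real.pi : ℂ) * Complex.I * x) = ((2 * Real.pi * x : ℝ) : ℂ) * Complex.I := by
    push_cast; ring
  rw [this]; exact Complex.norm_exp_ofReal_mul_I _

lemma e_rat_prim (y : ℚ) : IsPrimitiveRoot (e (y : ℝ)) y.den := by
  have := Complex.isPrimitiveRoot_exp_rat y
  unfold e; convert this using 2; push_cast; ring

/-- sum of the `n`-th roots of unity -/
lemma sum_primRoots (n : ℕ) (hn : 0 < n) :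
    ∑ z ∈ primitiveRoots n ℂ, z = ((ArithmeticFunction.moebius n : ℤ) : ℂ) := by
  classical
  have key : ∀ n > 0, ∑ i ∈ n.divisors, (∑ z ∈ primitiveRoots i ℂ, z) = if n = 1 then 1 else 0 := by
    intro n hn
    rw [← Finset.sum_biUnion]
    · rw [← IsPrimitiveRoot.nthRoots_one_eq_biUnion_primitiveRoots]
      have : NeZero n := ⟨hn.ne'⟩
      have hp := Complex.isPrimitiveRoot_exp n hn.ne'
      set ζ := Complex.exp (2 * Real.pi * Complex.I / n) with hζ
      have hset : Polynomial.nthRootsFinset n (1 : ℂ) = (range n).image (fun i => ζ ^ i) := by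
        ext z
        simp only [Polynomial.mem_nthRootsFinset hn, mem_image, mem_range]
        constructor
        · intro hz
          obtain ⟨i, hi, h⟩ := hp.eq_pow_of_pow_eq_one hz
          exact ⟨i, hi, h⟩
        · rintro ⟨i, -, rfl⟩
          rw [← pow_mul, mul_comm, pow_mul, hp.pow_eq_one, one_pow]
      rw [hset, Finset.sum_image]
      · split_ifs with h1
        · subst h1; simp
        · exact hp.geom_sum_eq_zero (by omega)
      · intro i hi j hj hij
        exact hp.pow_inj (by simpa using hi) (by simpa using hj) hij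
    · intro i _ j _ hij
      exact IsPrimitiveRoot.disjoint hij
  have h2 := (ArithmeticFunction.sum_eq_iff_sum_mul_moebius_eq
    (f := fun i => ∑ z ∈ primitiveRoots i ℂ, z) (g := fun n => if n = 1 then (1 : ℂ) else 0)).1 key n hn
  rw [← h2]
  rw [Finset.sum_eq_single (n, 1)]
  · simp
  · rintro ⟨a, b⟩ hab hne
    have : b ≠ 1 := by
      rintro rfl
      rw [Nat.mem_divisorsAntidiagonal] at hab
      apply hne
      simp at hab
      simp [hab.1]
    simp [this]
  · intro h
    exact absurd (by simp [hn.ne']) h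

lemma norm_moebius_le (n : ℕ) : ‖((ArithmeticFunction.moebius n : ℤ) : ℂ)‖ ≤ 1 := by
  rw [Complex.norm_intCast]
  exact_mod_cast ArithmeticFunction.abs_moebius_le_one

instance (y : ℚ) : NeZero y.den := ⟨y.pos.ne'⟩

/-- sum over units modulo the denominator -/
lemma sum_units_e (y : ℚ) :
    ‖∑ w : (ZMod y.den)ˣ, e (((w : ZMod y.den).val : ℝ) * (y : ℝ))‖ ≤ 1 := by
  classical
  have hn : 0 < y.den := y.pos
  have hp := e_rat_prim y
  have : ∑ w : (ZMod y.den)ˣ, e (((w : ZMod y.den).val : ℝ) * (y : ℝ))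
      = ∑ z ∈ primitiveRoots y.den ℂ, z := by
    refine Finset.sum_bij (fun w _ => e (y : ℝ) ^ ((w : ZMod y.den).val)) ?_ ?_ ?_ ?_
    · intro w _
      rw [mem_primitiveRoots hn]
      exact hp.pow_of_coprime _ (ZMod.val_coe_unit_coprime w)
    · intro w _ w' _ h
      have := hp.pow_inj (ZMod.val_lt _) (ZMod.val_lt _) h
      exact Units.ext (ZMod.val_injective _ this)
    · intro z hz
      rw [mem_primitiveRoots hn] at hz
      obtain ⟨i, hi, hc, h⟩ := (hp.isPrimitiveRoot_iff).1 hz
      refine ⟨ZMod.unitOfCoprime i hc, mem_univ _, ?_⟩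
      rw [← h]
      simp only [ZMod.coe_unitOfCoprime, ZMod.val_natCast]
      rw [Nat.mod_eq_of_lt hi]
    · intro w _
      exact e_nat_mul _ _
  rw [this, sum_primRoots _ hn]
  exact norm_moebius_le _

/-- fibres of a surjective homomorphism -/
lemma sum_comp_surj {G H : Type*} [Group G] [Fintype G] [Group H] [Fintype H] (f : G →* H)
    (hf : Function.Surjective f) (F : H → ℂ) :
    (Fintype.card H : ℂ) * ∑ x, F (f x) = (Fintype.card G : ℂ) * ∑ y, F y := by
  classical
  have hfib : ∀ y : H, (univ.filter (fun x => f x = y)).card * Fintype.card H = Fintype.card G := by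
    have h1 : ∀ y : H, (univ.filter (fun x => f x = y)).card = (univ.filter (fun x => f x = 1)).card := by
      intro y
      obtain ⟨x0, hx0⟩ := hf y
      refine Finset.card_bij (fun x _ => x0⁻¹ * x) ?_ ?_ ?_
      · intro x hx
        simp only [mem_filter, mem_univ, true_and] at hx ⊢
        rw [map_mul, map_inv, hx0, hx]; simp
      · intro a _ b _ h
        exact mul_left_cancel h
      · intro b hb
        simp only [mem_filter, mem_univ, true_and] at hb
        exact ⟨x0 * b, by simp [hx0, hb], by simp⟩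
    intro y
    have h2 : Fintype.card G = ∑ y : H, (univ.filter (fun x => f x = y)).card := by
      rw [← Finset.card_univ]
      exact Finset.card_eq_sum_card_fiberwise (fun x _ => by simp)
    rw [h2, Finset.sum_congr rfl (fun z _ => h1 z), Finset.sum_const, smul_eq_mul, h1 y,
      Finset.card_univ, mul_comm]
  have h3 : ∑ x, F (f x) = ∑ y, ((univ.filter (fun x => f x = y)).card : ℂ) * F y := by
    rw [← Finset.sum_fiberwise univ f (fun x => F (f x))]
    refine Finset.sum_congr rfl fun y _ => ?_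
    rw [Finset.sum_congr rfl (g := fun _ => F y)]
    · rw [Finset.sum_const, nsmul_eq_mul]
    · intro x hx
      simp only [mem_filter, mem_univ, true_and] at hx
      rw [hx]
  rw [h3, Finset.mul_sum, Finset.mul_sum]
  refine Finset.sum_congr rfl fun y _ => ?_
  rw [← mul_assoc, mul_comm (Fintype.card H : ℂ), ← hfib y]
  push_cast; ring

/-- a function of the residue: sum over `t < M` coprime to `M` as a sum over units -/
lemma sum_coprime_eq_units {E : Type*} [AddCommMonoid E] (M : ℕ) [NeZero M] (f : ℕ → E) :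
    ∑ t ∈ (range M).filter (fun t => Nat.Coprime t M), f t
      = ∑ u : (ZMod M)ˣ, f ((u : ZMod M).val) := by
  symm
  refine Finset.sum_bij (fun u _ => (u : ZMod M).val) ?_ ?_ ?_ ?_
  · intro u _
    rw [mem_filter, mem_range]
    exact ⟨ZMod.val_lt _, ZMod.val_coe_unit_coprime u⟩
  · intro u _ u' _ h
    exact Units.ext (ZMod.val_injective _ h)
  · intro t ht
    rw [mem_filter, mem_range] at ht
    refine ⟨ZMod.unitOfCoprime t ht.2, mem_univ _, ?_⟩
    simp only [ZMod.coe_unitOfCoprime, ZMod.val_natCast]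
    exact Nat.mod_eq_of_lt ht.1
  · intro u _; rfl

/-- `e (t y)` only depends on `t` modulo the denominator of `y` -/
lemma e_mod (y : ℚ) (t : ℕ) : e ((t : ℝ) * (y : ℝ)) = e (((t % y.den : ℕ) : ℝ) * (y : ℝ)) := by
  rw [e_nat_mul, e_nat_mul]
  conv_lhs => rw [← Nat.mod_add_div t y.den, pow_add, pow_mul, (e_rat_prim y).pow_eq_one, one_pow,
    mul_one]

theorem ram (M : ℕ) (hM : 0 < M) (y : ℚ) (hy : y.den ∣ M) :
    ‖∑ t ∈ (range M).filter (fun t => Nat.Coprime t M), e ((t : ℝ) * (y : ℝ))‖ * (Nat.totient y.den)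
      ≤ Nat.totient M := by
  classical
  have : NeZero M := ⟨hM.ne'⟩
  rw [sum_coprime_eq_units M (fun t => e ((t : ℝ) * (y : ℝ)))]
  have h1 : ∀ u : (ZMod M)ˣ, e ((((u : ZMod M).val : ℕ) : ℝ) * (y : ℝ))
      = (fun w : (ZMod y.den)ˣ => e (((w : ZMod y.den).val : ℝ) * (y : ℝ))) (ZMod.unitsMap hy u) := by
    intro u
    simp only [ZMod.unitsMap_val]
    rw [e_mod]
    congr 3
    rw [ZMod.cast_eq_val, ZMod.val_natCast]
  rw [Finset.sum_congr rfl (fun u _ => h1 u)]
  have h2 := sum_comp_surj (ZMod.unitsMap hy) (ZMod.unitsMap_surjective hy)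
    (fun w : (ZMod y.den)ˣ => e (((w : ZMod y.den).val : ℝ) * (y : ℝ)))
  rw [ZMod.card_units_eq_totient, ZMod.card_units_eq_totient] at h2
  have h3 := congrArg norm h2
  rw [norm_mul, norm_mul, Complex.norm_natCast, Complex.norm_natCast] at h3
  calc _ = (Nat.totient y.den : ℝ) * ‖∑ x : (ZMod M)ˣ, (fun w : (ZMod y.den)ˣ => e (((w : ZMod y.den).val : ℝ) * (y : ℝ))) (ZMod.unitsMap hy x)‖ := by ring
    _ = (Nat.totient M : ℝ) * ‖∑ w : (ZMod y.den)ˣ, e (((w : ZMod y.den).val : ℝ) * (y : ℝ))‖ := h3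
    _ ≤ (Nat.totient M : ℝ) * 1 := by
        exact mul_le_mul_of_nonneg_left (sum_units_e y) (Nat.cast_nonneg _)
    _ = _ := by ring

end Pool.Agent.helper76.FV
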