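import Pool.Agent.helper76.FV.Stmt
import Pool.Agent.helper76.FV.BM
import Pool.Agent.helper31.FV.BL
import Pool.Agent.helper79.FV.CR

/-! # Almost all Tate characters of products of Fermat varieties are decomposable -/

namespace Pool.Agent.helper76.FV

open Finset

/-- paired characters with vanishing block sums are Tate -/
theorem tate_of_paired (m : ℕ) (hm : 0 < m) {k s : ℕ} (π : Fin k → Fin s) (a : Fin k → ZMod m)
    (h0 : ∀ i, a i ≠ 0) (hb : BlockZero π a) (hp : Paired a) : IsTateChar m π a :=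
  (isTateChar_iff m hm π a).2 ⟨hb, TateM_of_paired m hm a h0 hp⟩

/-- few Tate characters are not paired -/
theorem block_exceptional {k s : ℕ} (π : Fin k → Fin s) (d : ℕ) (hd : 2 * d + oddBlocks π = k) :
    ∃ C : ℕ, ∀ m : ℕ, 0 < m →
      m * Set.ncard {a : Fin k → ZMod m | IsTateChar m π a ∧ ¬ Paired a} ≤ C * m ^ d := by
  classical
  rcases Nat.eq_zero_or_pos k with rfl | hk
  · refine ⟨0, fun m hm => ?_⟩
    have : {a : Fin 0 → ZMod m | IsTateChar m π a ∧ ¬ Paired a} = ∅ := by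
      ext a
      rw [Set.mem_empty_iff_false, iff_false]
      rintro ⟨-, h⟩
      exact h ⟨Equiv.refl _, fun i => i.elim0, fun i => i.elim0, fun i => i.elim0⟩
    rw [this]; simp
  have : Nonempty (Fin k) := ⟨⟨0, hk⟩⟩
  let ℓ : Fin s → Fin k := fun j => if h : ∃ i, π i = j then h.choose else Classical.arbitrary _
  have hℓ : ∀ i, π (ℓ (π i)) = π i := by
    intro i
    have h : ∃ i', π i' = π i := ⟨i, rfl⟩
    simp only [ℓ, dif_pos h]
    exact h.choose_spec
  obtain ⟨Ls, hLs, hcov⟩ := families (blockFam π ℓ)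
  have hkey : ∀ H ∈ Ls, ∃ C : ℕ, ∀ m : ℕ, 0 < m →
      m * Set.ncard {a : Fin k → ZMod m | IsTateChar m π a ∧ ¬ Paired a ∧ H.Mem (frac m a)}
        ≤ C * m ^ d := by
    intro H hH
    by_cases hne : ∃ x, H.Mem x ∧ ∀ i, Int.fract (x i) ≠ 0
    · rcases block_classes π H (hLs H hH).1 hne
        (fun x hx => (blockFam_mem π ℓ hℓ x).1 ((hLs H hH).2 x hx)) with hp | ⟨T, hTc, hT⟩
      · refine ⟨0, fun m hm => ?_⟩
        have : {a : Fin k → ZMod m | IsTateChar m π a ∧ ¬ Paired a ∧ H.Mem (frac m a)} = ∅ := by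
          ext a
          rw [Set.mem_empty_iff_false, iff_false]
          rintro ⟨-, h2, h3⟩
          exact h2 ((pairedQ_iff m hm a).1 (hp _ h3))
        rw [this]; simp
      · obtain ⟨C, hC⟩ := count_rank H T hT
        refine ⟨C, fun m hm => ?_⟩
        have : NeZero m := ⟨hm.ne'⟩
        have h1 := (Set.ncard_le_ncard (s := {a : Fin k → ZMod m | IsTateChar m π a ∧ ¬ Paired a ∧
          H.Mem (frac m a)}) (t := {a : Fin k → ZMod m | H.Mem (frac m a)})
          (fun a ha => ha.2.2) (Set.toFinite _)).trans (hC m hm)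
        calc _ ≤ m * (C * m ^ T.card) := Nat.mul_le_mul_left _ h1
          _ = C * m ^ (T.card + 1) := by ring
          _ ≤ C * m ^ d := Nat.mul_le_mul_left _ (Nat.pow_le_pow_right hm (by omega))
    · refine ⟨0, fun m hm => ?_⟩
      have : {a : Fin k → ZMod m | IsTateChar m π a ∧ ¬ Paired a ∧ H.Mem (frac m a)} = ∅ := by
        ext a
        rw [Set.mem_empty_iff_false, iff_false]
        rintro ⟨h1, -, h3⟩
        exact hne ⟨_, h3, ((tateM_iff m hm a).1 ((isTateChar_iff m hm π a).1 h1).2).1⟩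
      rw [this]; simp
  choose! C hC using hkey
  refine ⟨(Ls.map C).sum, fun m hm => ?_⟩
  have : NeZero m := ⟨hm.ne'⟩
  have hsub : ∀ Ms : List (Fam k), (∀ H ∈ Ms, H ∈ Ls) →
      m * Set.ncard {a : Fin k → ZMod m | IsTateChar m π a ∧ ¬ Paired a ∧ ∃ H ∈ Ms, H.Mem (frac m a)}
        ≤ (Ms.map C).sum * m ^ d := by
    intro Ms
    induction Ms with
    | nil => intro _; simp
    | cons H Ms ih =>
      intro h
      have h1 := hC H (h H (by simp)) m hm
      have h2 := ih (fun H' hH' => h H' (by simp [hH']))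
      have hun : {a : Fin k → ZMod m | IsTateChar m π a ∧ ¬ Paired a ∧ ∃ H' ∈ H :: Ms, H'.Mem (frac m a)}
          ⊆ {a : Fin k → ZMod m | IsTateChar m π a ∧ ¬ Paired a ∧ H.Mem (frac m a)} ∪
            {a : Fin k → ZMod m | IsTateChar m π a ∧ ¬ Paired a ∧ ∃ H' ∈ Ms, H'.Mem (frac m a)} := by
        rintro a ⟨g1, g2, H', hH', g3⟩
        rcases List.mem_cons.1 hH' with rfl | hH'
        · exact Or.inl ⟨g1, g2, g3⟩
        · exact Or.inr ⟨g1, g2, H', hH', g3⟩
      refine (Nat.mul_le_mul_left m ((Set.ncard_le_ncard hun (Set.toFinite _)).trans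
        (Set.ncard_union_le _ _))).trans ?_
      rw [List.map_cons, List.sum_cons, add_mul, mul_add]
      exact Nat.add_le_add h1 h2
  refine le_trans (Nat.mul_le_mul_left m (Set.ncard_le_ncard ?_ (Set.toFinite _))) (hsub Ls (fun _ h => h))
  rintro a ⟨h1, h2⟩
  have hB := (isTateChar_iff m hm π a).1 h1
  have hmem : (blockFam π ℓ).Mem (frac m a) := by
    rw [blockFam_mem π ℓ hℓ]
    exact fun j => (sum_frac_int m hm a _).2 (hB.1 j)
  exact ⟨h1, h2, hcov _ hmem ((tateM_iff m hm a).1 hB.2)⟩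

/-- the number of non-decomposable Tate characters is `O(m^(d-1))`, that of the decomposable ones
is at least `m^d - k m^(d-1)` -/
theorem tate_almost_all {k s : ℕ} (π : Fin k → Fin s) (h1 : ∀ j, bsize π j ≠ 1)
    (h2 : Even (oddBlocks π)) (d : ℕ) (hd : 2 * d + oddBlocks π = k) :
    ∃ C : ℕ, ∀ m : ℕ, 0 < m →
      (∀ a : Fin k → ZMod m, (∀ i, a i ≠ 0) → BlockZero π a → Paired a → IsTateChar m π a) ∧
      m * Set.ncard {a : Fin k → ZMod m | IsTateChar m π a ∧ ¬ Paired a} ≤ C * m ^ d ∧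
      m ^ (d + 1) ≤ m * Set.ncard {a : Fin k → ZMod m | IsTateChar m π a ∧ Paired a}
        + k * m ^ d := by
  obtain ⟨C, hC⟩ := block_exceptional π d hd
  refine ⟨C, fun m hm => ⟨fun a h0 hb hp => tate_of_paired m hm π a h0 hb hp, hC m hm, ?_⟩⟩
  have := paired_lower π h1 h2 d hd m hm
  have : {a : Fin k → ZMod m | (∀ i, a i ≠ 0) ∧ BlockZero π a ∧ Paired a} =
      {a : Fin k → ZMod m | IsTateChar m π a ∧ Paired a} := by
    ext a
    constructor
    · rintro ⟨h0, hb, hp⟩
      exact ⟨tate_of_paired m hm π a h0 hb hp, hp⟩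
    · rintro ⟨h, hp⟩
      exact ⟨h.1, h.2.1, hp⟩
  rw [← this]
  assumption

end Pool.Agent.helper76.FV
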