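import Pool.Agent.helper76.FV.Stmt2

/-! # Structure of the set of Tate characters of products of Fermat varieties -/

namespace Pool.Agent.helper76.FV

open Finset

/-- the dimension of a family: the rank of its matrix -/
noncomputable def Fam.rank {k : ℕ} (H : Fam k) : ℕ :=
  (Matrix.of (fun i j => (H.A i j : ℚ))).rank

lemma rank_le_of_span {k : ℕ} (H : Fam k) (T : Finset (Fin k))
    (hT : ∀ j, ∃ D : ℤ, D ≠ 0 ∧ ∃ c : Fin k → ℤ, ∀ l, D * H.A j l = ∑ i ∈ T, c i * H.A i l) :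
    H.rank ≤ T.card := by
  classical
  unfold Fam.rank
  rw [Matrix.rank_eq_finrank_span_row]
  have hsub : Submodule.span ℚ (Set.range (Matrix.of (fun i j => (H.A i j : ℚ))).row)
      ≤ Submodule.span ℚ ((T.image (fun i => vrow H i) : Finset (Fin H.d → ℚ)) : Set (Fin H.d → ℚ)) := by
    rw [Submodule.span_le]
    rintro _ ⟨j, rfl⟩
    obtain ⟨D, hD, c, hc⟩ := hT j
    have hD' : (D : ℚ) ≠ 0 := by exact_mod_cast hD
    have : (Matrix.of (fun i j => (H.A i j : ℚ))).row j = ∑ i ∈ T, ((c i : ℚ) / D) • vrow H i := by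
      funext l
      rw [Finset.sum_apply]
      change (H.A j l : ℚ) = _
      simp only [Pi.smul_apply, smul_eq_mul, vrow]
      have h1 : (D : ℚ) * H.A j l = ∑ i ∈ T, (c i : ℚ) * H.A i l := by exact_mod_cast hc l
      have h2 : ∑ i ∈ T, (c i : ℚ) / D * (H.A i l : ℚ) = (∑ i ∈ T, (c i : ℚ) * H.A i l) / D := by
        rw [Finset.sum_div]
        exact Finset.sum_congr rfl fun i _ => by ring
      rw [h2, ← h1]
      field_simp
    rw [this]
    refine Submodule.sum_mem _ fun i hi => Submodule.smul_mem _ _ (Submodule.subset_span ?_)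
    exact_mod_cast Finset.mem_image_of_mem _ hi
  refine (Submodule.finrank_mono hsub).trans ?_
  exact (finrank_span_finset_le_card _).trans Finset.card_image_le

/-- structure of the set of Tate characters -/
theorem tate_structure {k s : ℕ} (π : Fin k → Fin s) (h1 : ∀ j, bsize π j ≠ 1)
    (h2 : Even (oddBlocks π)) (d : ℕ) (hd : 2 * d + oddBlocks π = k) :
    ∃ L : List (Fam k), ∃ C : ℕ,
      (∀ H ∈ L, (∀ x, H.Mem x → PairedQ x) ∨ H.rank < d) ∧
      ∀ m : ℕ, 0 < m →
        (∀ a : Fin k → ZMod m, IsTateChar m π a ↔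
          (∀ i, a i ≠ 0) ∧ ∃ H ∈ L, H.Mem (fun i => ((a i).val : ℚ) / m)) ∧
        m * Set.ncard {a : Fin k → ZMod m | IsTateChar m π a ∧ ¬ Paired a} ≤ C * m ^ d ∧
        m ^ (d + 1) ≤ m * Set.ncard {a : Fin k → ZMod m | IsTateChar m π a ∧ Paired a}
          + k * m ^ d := by
  classical
  obtain ⟨C, hC⟩ := tate_almost_all π h1 h2 d hd
  -- families inside the block family
  have hmain : ∃ Ls : List (Fam k), (∀ H' ∈ Ls, H'.Pure ∧ ∀ x, H'.Mem x →
        ∀ j, ∃ n : ℤ, ∑ i ∈ univ.filter (fun i => π i = j), x i = n) ∧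
      ∀ m : ℕ, 0 < m → ∀ a : Fin k → ZMod m, IsTateChar m π a ↔
          (∀ i, a i ≠ 0) ∧ ∃ H ∈ Ls, H.Mem (frac m a) := by
    rcases Nat.eq_zero_or_pos k with rfl | hk
    · refine ⟨[fullFam 0], ?_, fun m hm a => ⟨fun _ => ⟨fun i => i.elim0, _,
        List.mem_singleton.2 rfl, fullFam_mem _⟩, fun _ => ?_⟩⟩
      · intro H' _
        refine ⟨fun x _ _ => ⟨fun i => i.elim0, fun t _ => by simp⟩, fun x _ j => ⟨0, ?_⟩⟩
        rw [Finset.sum_eq_zero]
        · simp
        · intro i; exact i.elim0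
      · refine (isTateChar_iff m hm π a).2 ⟨fun j => ?_, fun i => i.elim0, fun t => by simp⟩
        rw [Finset.sum_eq_zero]
        intro i; exact i.elim0
    have : Nonempty (Fin k) := ⟨⟨0, hk⟩⟩
    let ℓ : Fin s → Fin k := fun j => if h : ∃ i, π i = j then h.choose else Classical.arbitrary _
    have hℓ : ∀ i, π (ℓ (π i)) = π i := by
      intro i
      have h : ∃ i', π i' = π i := ⟨i, rfl⟩
      simp only [ℓ, dif_pos h]
      exact h.choose_spec
    obtain ⟨Ls, hLs, hcov⟩ := families (blockFam π ℓ)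
    refine ⟨Ls, fun H' hH' => ⟨(hLs H' hH').1, fun x hx =>
      (blockFam_mem π ℓ hℓ x).1 ((hLs H' hH').2 x hx)⟩, fun m hm a => ?_⟩
    rw [isTateChar_iff m hm]
    have hblock : (blockFam π ℓ).Mem (frac m a) ↔
        ∀ j, ∑ i ∈ univ.filter (fun i => π i = j), a i = 0 := by
      rw [blockFam_mem π ℓ hℓ]
      exact forall_congr' fun j => sum_frac_int m hm a _
    constructor
    · rintro ⟨hb, ht⟩
      exact ⟨ht.1, hcov _ (hblock.2 hb) ((tateM_iff m hm a).1 ht)⟩
    · rintro ⟨h0, H, hH, hmem⟩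
      refine ⟨hblock.1 ((hLs H hH).2 _ hmem), (tateM_iff m hm a).2 ((hLs H hH).1 _ hmem fun i hi => ?_)⟩
      rw [Int.fract_eq_zero_iff] at hi
      obtain ⟨n, hn⟩ := hi
      apply h0 i
      have := (sum_frac_int m hm a {i}).1 ⟨n, by simpa using hn.symm⟩
      simpa using this
  obtain ⟨Ls, hLs, hiff⟩ := hmain
  refine ⟨Ls.filter (fun H => ∃ x, H.Mem x ∧ ∀ i, Int.fract (x i) ≠ 0), C, ?_, fun m hm =>
    ⟨fun a => ?_, (hC m hm).2.1, (hC m hm).2.2⟩⟩
  · intro H hH
    rw [List.mem_filter] at hH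
    have hne : ∃ x, H.Mem x ∧ ∀ i, Int.fract (x i) ≠ 0 := by simpa using hH.2
    rcases block_classes π H (hLs H hH.1).1 hne (hLs H hH.1).2 with h | ⟨T, hTc, hT⟩
    · exact Or.inl h
    · right
      have := rank_le_of_span H T hT
      omega
  · rw [hiff m hm a]
    constructor
    · rintro ⟨h0, H, hH, hmem⟩
      refine ⟨h0, H, ?_, hmem⟩
      rw [List.mem_filter]
      refine ⟨hH, ?_⟩
      have : ∃ x, H.Mem x ∧ ∀ i, Int.fract (x i) ≠ 0 := by
        refine ⟨frac m a, hmem, fun i hi => h0 i ?_⟩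
        rw [Int.fract_eq_zero_iff] at hi
        obtain ⟨n, hn⟩ := hi
        have := (sum_frac_int m hm a {i}).1 ⟨n, by simpa using hn.symm⟩
        simpa using this
      simpa using this
    · rintro ⟨h0, H, hH, hmem⟩
      rw [List.mem_filter] at hH
      exact ⟨h0, H, hH.1, hmem⟩

end Pool.Agent.helper76.FV
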