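import Pool.Agent.helper76.FV.RS

namespace Pool.Agent.helper76.FV

open Finset

/-- `φ(n) → ∞` -/
lemma totient_large (B : ℕ) : ∃ C : ℕ, ∀ n : ℕ, C < n → B < Nat.totient n := by
  refine ⟨B * (B + 1).factorial, fun n hn => ?_⟩
  by_contra hcon
  push Not at hcon
  have hn0 : 0 < n := by omega
  have h1 := Nat.totient_mul_prod_primeFactors n
  have h2 : 1 ≤ ∏ p ∈ n.primeFactors, (p - 1) := by
    rw [Nat.one_le_iff_ne_zero, Finset.prod_ne_zero_iff]
    intro p hp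
    have := (Nat.prime_of_mem_primeFactors hp).two_le
    omega
  have h3 : ∏ p ∈ n.primeFactors, p ≤ (B + 1).factorial := by
    rw [← Finset.prod_Ico_id_eq_factorial]
    refine Finset.prod_le_prod_of_subset_of_one_le' ?_ ?_
    · intro p hp
      have hpp := Nat.prime_of_mem_primeFactors hp
      have hd := Nat.totient_dvd_of_dvd (Nat.dvd_of_mem_primeFactors hp)
      rw [Nat.totient_prime hpp] at hd
      have := Nat.le_of_dvd (Nat.totient_pos.2 hn0) hd
      rw [mem_Ico]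
      have := hpp.two_le
      omega
    · intro i hi _
      rw [mem_Ico] at hi
      exact hi.1
  have h4 : n ≤ Nat.totient n * ∏ p ∈ n.primeFactors, p := by
    rw [h1]; exact Nat.le_mul_of_pos_right _ h2
  have h5 : Nat.totient n * ∏ p ∈ n.primeFactors, p ≤ B * (B + 1).factorial :=
    Nat.mul_le_mul hcon h3
  omega

lemma unitsMap_eq_iff (M q : ℕ) [NeZero M] (hq : q ∣ M) (t₀ : ℤ) (ht : IsCoprime t₀ (q : ℤ))
    (u : (ZMod M)ˣ) : ZMod.unitsMap hq u = ZMod.unitOfIsCoprime t₀ ht ↔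
      (q : ℤ) ∣ (((u : ZMod M).val : ℕ) : ℤ) - t₀ := by
  rw [Units.ext_iff, ZMod.unitsMap_val, ZMod.coe_unitOfIsCoprime, ZMod.cast_eq_val]
  rw [← Int.cast_natCast, eq_comm, ZMod.intCast_eq_intCast_iff_dvd_sub]

theorem TT_card (M q : ℕ) (hM : 0 < M) (hq : q ∣ M) (t₀ : ℤ) (ht : IsCoprime t₀ (q : ℤ)) :
    (TT M q t₀).card * Nat.totient q = Nat.totient M := by
  classical
  have : NeZero M := ⟨hM.ne'⟩
  have hq0 : 0 < q := Nat.pos_of_dvd_of_pos hq hM
  have : NeZero q := ⟨hq0.ne'⟩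
  have h1 : ((TT M q t₀).card : ℂ) = ∑ u : (ZMod M)ˣ,
      (fun w : (ZMod q)ˣ => if w = ZMod.unitOfIsCoprime t₀ ht then (1 : ℂ) else 0)
        (ZMod.unitsMap hq u) := by
    have : ((TT M q t₀).card : ℂ) = ∑ t ∈ (range M).filter (fun t => Nat.Coprime t M),
        (fun t : ℕ => if (q : ℤ) ∣ (t : ℤ) - t₀ then (1 : ℂ) else 0) t := by
      rw [Finset.sum_boole, TT, Finset.filter_filter]
    rw [this, sum_coprime_eq_units M]
    refine Finset.sum_congr rfl fun u _ => ?_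
    simp only [unitsMap_eq_iff M q hq t₀ ht u]
  have h2 := sum_comp_surj (ZMod.unitsMap hq) (ZMod.unitsMap_surjective hq)
    (fun w : (ZMod q)ˣ => if w = ZMod.unitOfIsCoprime t₀ ht then (1 : ℂ) else 0)
  rw [← h1, ZMod.card_units_eq_totient, ZMod.card_units_eq_totient] at h2
  simp only [Finset.sum_ite_eq', mem_univ, if_true, mul_one] at h2
  rw [mul_comm]
  exact_mod_cast h2

theorem TT_pos (M q : ℕ) (hM : 0 < M) (hq : q ∣ M) (t₀ : ℤ) (ht : IsCoprime t₀ (q : ℤ)) :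
    0 < (TT M q t₀).card := by
  rcases Nat.eq_zero_or_pos (TT M q t₀).card with h | h
  · have := TT_card M q hM hq t₀ ht
    rw [h, zero_mul] at this
    have := Nat.totient_pos.2 hM
    omega
  · exact h

theorem exists_lift (Q M : ℕ) (hQ : 0 < Q) (hM : 0 < M) (t₀ : ℤ) (ht : IsCoprime t₀ (Q : ℤ)) :
    ∃ t : ℤ, IsCoprime t (M : ℤ) ∧ (Q : ℤ) ∣ t - t₀ := by
  have h := TT_pos (Q * M) Q (Nat.mul_pos hQ hM) (Dvd.intro _ rfl) t₀ ht
  obtain ⟨t, htm⟩ := Finset.card_pos.1 h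
  rw [TT, mem_filter] at htm
  refine ⟨t, ?_, htm.2.2⟩
  exact Nat.isCoprime_iff_coprime.2 (Nat.Coprime.coprime_mul_left_right htm.2.1)

lemma den_dvd_of_int (x : ℚ) (M : ℕ) (hM : 0 < M) (n : ℤ) (h : (M : ℚ) * x = n) : x.den ∣ M := by
  have hx : x = Rat.divInt n (M : ℤ) := by
    rw [Rat.divInt_eq_div]
    have : ((M : ℤ) : ℚ) ≠ 0 := by exact_mod_cast hM.ne'
    field_simp
    push_cast
    linarith [h]
  have := Rat.den_dvd n (M : ℤ)
  rw [← hx] at this
  exact_mod_cast this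

lemma int_of_den_dvd (x : ℚ) (M : ℕ) (h : x.den ∣ M) : ∃ n : ℤ, (M : ℚ) * x = n := by
  obtain ⟨c, hc⟩ := h
  refine ⟨c * x.num, ?_⟩
  have h1 : (x.num : ℚ) = x * x.den := (Rat.mul_den_eq_num x).symm
  rw [hc]
  push_cast
  rw [h1]; ring

lemma shift_den (q : ℕ) (hq : 0 < q) (y : ℚ) (s : ℕ) :
    y.den ≤ (y + (s : ℚ) / q).den * q := by
  have h1 : y = (y + (s : ℚ) / q) + (-((s : ℚ) / q)) := by ring
  have h2 : y.den ∣ (y + (s : ℚ) / q).den * (-((s : ℚ) / q)).den := by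
    conv_lhs => rw [h1]
    exact Rat.add_den_dvd _ _
  have h3 : (-((s : ℚ) / q)).den ∣ q := by
    refine den_dvd_of_int _ q hq (-(s : ℤ)) ?_
    have : (q : ℚ) ≠ 0 := by exact_mod_cast hq.ne'
    push_cast; field_simp
  have h4 := h2.trans (Nat.mul_dvd_mul_left _ h3)
  exact Nat.le_of_dvd (Nat.mul_pos (Rat.pos _) hq) h4

lemma shift_den_dvd (q M : ℕ) (hM : 0 < M) (hqM : q ∣ M) (y : ℚ) (hy : y.den ∣ M) (s : ℕ) :
    (y + (s : ℚ) / q).den ∣ M := by
  obtain ⟨n, hn⟩ := int_of_den_dvd y M hy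
  obtain ⟨c, hc⟩ := hqM
  have hq0 : (q : ℚ) ≠ 0 := by
    have : q ≠ 0 := by rintro rfl; simp at hc; omega
    exact_mod_cast this
  refine den_dvd_of_int _ M hM (n + c * s) ?_
  rw [mul_add, hn, hc]
  push_cast
  field_simp

/-- detecting the congruence `t ≡ t₀ (mod q)` with additive characters -/
lemma detect (q : ℕ) (hq : 0 < q) (a : ℤ) :
    ∑ s ∈ range q, e ((s : ℝ) * ((a : ℝ) / q)) = if (q : ℤ) ∣ a then (q : ℂ) else 0 := by
  have hq0 : (q : ℝ) ≠ 0 := by exact_mod_cast hq.ne'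
  split_ifs with h
  · obtain ⟨c, rfl⟩ := h
    rw [Finset.sum_congr rfl (g := fun _ => (1 : ℂ))]
    · simp
    · intro s _
      have : (s : ℝ) * ((((q : ℤ) * c : ℤ) : ℝ) / q) = (((s : ℤ) * c : ℤ) : ℝ) := by
        push_cast; field_simp
      rw [this, e_int]
  · have hne : e ((a : ℝ) / q) ≠ 1 := by
      intro h1
      apply h
      unfold e at h1
      rw [Complex.exp_eq_one_iff] at h1
      obtain ⟨n, hn⟩ := h1
      have h2pi : (2 * (Real.pi : ℂ) * Complex.I) ≠ 0 := Complex.two_pi_I_ne_zero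
      have h3 : (((a : ℝ) / q : ℝ) : ℂ) = (n : ℂ) := by
        have : (2 * (Real.pi : ℂ) * Complex.I) * ((((a : ℝ) / q : ℝ) : ℂ) - n) = 0 := by
          rw [mul_sub, hn]; ring
        rcases mul_eq_zero.1 this with h | h
        · exact absurd h h2pi
        · exact sub_eq_zero.1 h
      have h4 : ((a : ℝ) / q : ℝ) = (n : ℝ) := by exact_mod_cast h3
      rw [div_eq_iff hq0] at h4
      refine ⟨n, ?_⟩
      have : (a : ℝ) = ((q * n : ℤ) : ℝ) := by push_cast; rw [h4]; ring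
      exact_mod_cast this
    have hpow : e ((a : ℝ) / q) ^ q = 1 := by
      rw [← e_nat_mul]
      have : (q : ℝ) * ((a : ℝ) / q) = (a : ℝ) := by field_simp
      rw [this, e_int]
    have : ∑ s ∈ range q, e ((s : ℝ) * ((a : ℝ) / q)) = ∑ s ∈ range q, e ((a : ℝ) / q) ^ s :=
      Finset.sum_congr rfl fun s _ => e_nat_mul _ _
    rw [this, geom_sum_eq hne, hpow]; simp

theorem weyl (q : ℕ) (hq : 0 < q) (t₀ : ℤ) (ht : IsCoprime t₀ (q : ℤ)) (ε : ℝ) (hε : 0 < ε) :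
    ∃ C : ℕ, ∀ M : ℕ, 0 < M → q ∣ M → ∀ y : ℚ, y.den ∣ M → C < y.den →
      ‖∑ t ∈ TT M q t₀, e ((t : ℝ) * (y : ℝ))‖ ≤ ε * (TT M q t₀).card := by
  classical
  obtain ⟨B, hB⟩ := exists_nat_gt ((q : ℝ) / ε)
  obtain ⟨C, hC⟩ := totient_large B
  refine ⟨C * q, fun M hM hqM y hy hCy => ?_⟩
  have hq0 : (q : ℝ) ≠ 0 := by exact_mod_cast hq.ne'
  have hqpos : (0 : ℝ) < q := by exact_mod_cast hq
  have hBpos : (0 : ℝ) < B := lt_trans (by positivity) hB
  -- expansion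
  have hexp : (q : ℂ) * ∑ t ∈ TT M q t₀, e ((t : ℝ) * (y : ℝ)) =
      ∑ s ∈ range q, e (-(s : ℝ) * ((t₀ : ℝ) / q)) *
        ∑ t ∈ (range M).filter (fun t => Nat.Coprime t M), e ((t : ℝ) * ((y + (s : ℚ) / q : ℚ) : ℝ)) := by
    have h1 : (q : ℂ) * ∑ t ∈ TT M q t₀, e ((t : ℝ) * (y : ℝ)) =
        ∑ t ∈ (range M).filter (fun t => Nat.Coprime t M),
          (∑ s ∈ range q, e ((s : ℝ) * ((((t : ℤ) - t₀ : ℤ) : ℝ) / q))) * e ((t : ℝ) * (y : ℝ)) := by
      rw [TT, ← Finset.filter_filter, Finset.sum_filter (s := (range M).filter (fun t => Nat.Coprime t M)), Finset.mul_sum]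
      refine Finset.sum_congr rfl fun t _ => ?_
      rw [detect q hq]
      split_ifs <;> simp
    rw [h1]
    simp_rw [Finset.sum_mul, Finset.mul_sum]
    rw [Finset.sum_comm]
    refine Finset.sum_congr rfl fun s _ => Finset.sum_congr rfl fun t _ => ?_
    rw [← e_add, ← e_add]
    congr 1
    push_cast
    field_simp
    ring
  have hbound : ∀ s ∈ range q, ‖∑ t ∈ (range M).filter (fun t => Nat.Coprime t M),
      e ((t : ℝ) * ((y + (s : ℚ) / q : ℚ) : ℝ))‖ ≤ Nat.totient M / B := by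
    intro s _
    have h1 := ram M hM (y + (s : ℚ) / q) (shift_den_dvd q M hM hqM y hy s)
    have h2 := shift_den q hq y s
    have h3 : C < (y + (s : ℚ) / q).den := by
      by_contra hcon
      push Not at hcon
      have := Nat.mul_le_mul_right q hcon
      omega
    have h4 : (B : ℝ) ≤ Nat.totient (y + (s : ℚ) / q).den := by exact_mod_cast (hC _ h3).le
    rw [le_div_iff₀ hBpos]
    refine le_trans ?_ h1
    exact mul_le_mul_of_nonneg_left h4 (norm_nonneg _)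
  have hn : (q : ℝ) * ‖∑ t ∈ TT M q t₀, e ((t : ℝ) * (y : ℝ))‖ ≤ q * (Nat.totient M / B) := by
    have : (q : ℝ) * ‖∑ t ∈ TT M q t₀, e ((t : ℝ) * (y : ℝ))‖
        = ‖(q : ℂ) * ∑ t ∈ TT M q t₀, e ((t : ℝ) * (y : ℝ))‖ := by
      rw [norm_mul, Complex.norm_natCast]
    rw [this, hexp]
    refine (norm_sum_le _ _).trans ?_
    refine (Finset.sum_le_sum (g := fun _ => (Nat.totient M : ℝ) / B) fun s hs => ?_).trans ?_
    · rw [norm_mul, norm_e, one_mul]; exact hbound s hs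
    · rw [Finset.sum_const, card_range, nsmul_eq_mul]
  have hn2 := le_of_mul_le_mul_left hn hqpos
  refine hn2.trans ?_
  have hcard := TT_card M q hM hqM t₀ ht
  have h5 : (Nat.totient M : ℝ) = (TT M q t₀).card * Nat.totient q := by
    rw [← hcard]; push_cast; ring
  have h6 : (Nat.totient q : ℝ) ≤ q := by exact_mod_cast Nat.totient_le q
  rw [div_le_iff₀ hBpos, h5]
  have h7 : (q : ℝ) ≤ ε * B := by
    rw [div_lt_iff₀ hε] at hB
    linarith [mul_comm ε (B : ℝ)]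
  calc ((TT M q t₀).card : ℝ) * Nat.totient q ≤ (TT M q t₀).card * (ε * B) :=
        mul_le_mul_of_nonneg_left (h6.trans h7) (Nat.cast_nonneg _)
    _ = _ := by ring

end Pool.Agent.helper76.FV
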